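import Pool.Agent.H76.OP.Tab

/-!
# The graph of tiles
-/

set_option autoImplicit false

namespace Pool.Agent.H76.OP

/-- labels of vertices: row and column of the tile, vertex of the tile -/
abbrev Lb : Type := ℕ × ℕ × ℕ

/-- the side of a vertex of a tile (`0`: no such vertex) -/
def side (k t : ℕ) : ℕ := (vT.getD k []).getD t 0

/-- the neighbours in the tile -/
def nbr (k t : ℕ) : List ℕ := (nT.getD k []).getD t []

/-- the kinds of the tiles of a grid with `N` rows and `C` columns -/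
def kd (N C : ℕ) (tap : ℕ → ℕ → Bool) (i j : ℕ) : ℕ :=
  if i = 0 then (if 1 ≤ j ∧ j ≤ C then 5 else 0)
  else if N + 1 < i then 0
  else if i = N + 1 then (if 1 ≤ j ∧ j ≤ C then 6 else 0)
  else if j = 0 then 3
  else if C + 1 < j then 0
  else if j = C + 1 then 4
  else if tap i j = true then 2 else 1

/-- the edges between neighbouring tiles: the ends and the shift of row and column -/
def bpat : List (ℕ × ℕ × ℕ × ℕ) := [(2, 0, 0, 1), (3, 1, 0, 1), (6, 4, 1, 0), (7, 5, 1, 0)]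

/-- the edges, oriented -/
def E0 (K : ℕ → ℕ → ℕ) (v w : Lb) : Prop :=
  (v.1 = w.1 ∧ v.2.1 = w.2.1 ∧ (K v.1 v.2.1, v.2.2, w.2.2) ∈ eL) ∨
    ∃ p ∈ bpat, v.2.2 = p.1 ∧ w.2.2 = p.2.1 ∧ w.1 = v.1 + p.2.2.1 ∧ w.2.1 = v.2.1 + p.2.2.2

/-- existence of a vertex -/
def ok (K : ℕ → ℕ → ℕ) (v : Lb) : Prop := side (K v.1 v.2.1) v.2.2 ≠ 0

theorem T1 : ∀ e ∈ eL, e.2.2 ∈ nbr e.1 e.2.1 ∧ e.2.1 ∈ nbr e.1 e.2.2 ∧ side e.1 e.2.1 = 1 ∧
    side e.1 e.2.2 = 2 := by decide +kernel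

theorem T2 : ∀ k ∈ List.range 7, ∀ t ∈ List.range 120, ∀ t' ∈ nbr k t,
    (k, t, t') ∈ eL ∨ (k, t', t) ∈ eL := by decide +kernel

theorem T3 : ∀ k ∈ List.range 7, ∀ t ∈ List.range 120, side k t ≠ 0 →
    (nbr k t).length + (if t < 8 then 1 else 0) = 3 ∧ (nbr k t).Nodup := by decide +kernel

theorem T4 : ∀ k ∈ List.range 7, (vT.getD k []).length ≤ 120 := by decide +kernel

theorem T5 : ∀ k ∈ List.range 7,
    (side k 0 ≠ 0 ↔ k = 1 ∨ k = 2 ∨ k = 4) ∧ (side k 1 ≠ 0 ↔ k = 1 ∨ k = 2 ∨ k = 4) ∧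
    (side k 2 ≠ 0 ↔ k = 1 ∨ k = 2 ∨ k = 3) ∧ (side k 3 ≠ 0 ↔ k = 1 ∨ k = 2 ∨ k = 3) ∧
    (side k 4 ≠ 0 ↔ k = 1 ∨ k = 2 ∨ k = 6) ∧ (side k 5 ≠ 0 ↔ k = 1 ∨ k = 2 ∨ k = 6) ∧
    (side k 6 ≠ 0 ↔ k = 1 ∨ k = 2 ∨ k = 5) ∧ (side k 7 ≠ 0 ↔ k = 1 ∨ k = 2 ∨ k = 5) := by
  decide +kernel

theorem T6 : ∀ k ∈ List.range 7, (side k 0 ≠ 0 → side k 0 = 2) ∧ (side k 1 ≠ 0 → side k 1 = 1) ∧
    (side k 2 ≠ 0 → side k 2 = 1) ∧ (side k 3 ≠ 0 → side k 3 = 2) ∧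
    (side k 4 ≠ 0 → side k 4 = 2) ∧ (side k 5 ≠ 0 → side k 5 = 1) ∧
    (side k 6 ≠ 0 → side k 6 = 1) ∧ (side k 7 ≠ 0 → side k 7 = 2) := by
  decide +kernel

theorem T7 : ∀ k ∈ List.range 7, ∀ t ∈ List.range 120, side k t = 0 ∨ side k t = 1 ∨
    side k t = 2 := by decide +kernel

theorem E0_irrefl {K : ℕ → ℕ → ℕ} {v : Lb} : ¬ E0 K v v := by
  rintro (⟨-, -, h⟩ | ⟨p, hp, h1, h2, h3, h4⟩)
  · have h1 := (T1 _ h).2.2.1
    have h2 := (T1 _ h).2.2.2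
    dsimp only at h1 h2
    omega
  · simp only [bpat, List.mem_cons, List.not_mem_nil, or_false] at hp
    rcases hp with rfl | rfl | rfl | rfl <;> simp_all

/-- the graph -/
def GG (K : ℕ → ℕ → ℕ) : SimpleGraph Lb where
  Adj v w := ok K v ∧ ok K w ∧ (E0 K v w ∨ E0 K w v)
  symm := ⟨fun _ _ h => ⟨h.2.1, h.1, h.2.2.symm⟩⟩
  loopless := ⟨fun _ h => h.2.2.elim E0_irrefl E0_irrefl⟩

theorem adj_iff {K : ℕ → ℕ → ℕ} {v w : Lb} : (GG K).Adj v w ↔ ok K v ∧ ok K w ∧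
    (E0 K v w ∨ E0 K w v) := Iff.rfl

variable {N C : ℕ} {tap : ℕ → ℕ → Bool}

theorem kd_lt (i j : ℕ) : kd N C tap i j < 7 := by
  unfold kd
  split_ifs <;> omega

theorem kd_iff (i j : ℕ) :
    (kd N C tap i j = 1 ∨ kd N C tap i j = 2 ↔ (1 ≤ i ∧ i ≤ N) ∧ 1 ≤ j ∧ j ≤ C) ∧
    (kd N C tap i j = 3 ↔ (1 ≤ i ∧ i ≤ N) ∧ j = 0) ∧
    (kd N C tap i j = 4 ↔ (1 ≤ i ∧ i ≤ N) ∧ j = C + 1) ∧
    (kd N C tap i j = 5 ↔ i = 0 ∧ 1 ≤ j ∧ j ≤ C) ∧
    (kd N C tap i j = 6 ↔ i = N + 1 ∧ 1 ≤ j ∧ j ≤ C) := by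
  unfold kd
  split_ifs <;> simp <;> omega

theorem ok0 {i j : ℕ} : ok (kd N C tap) (i, j, 0) ↔ (1 ≤ i ∧ i ≤ N) ∧ 1 ≤ j ∧ j ≤ C + 1 := by
  have h1 := T5 _ (List.mem_range.2 (kd_lt (N := N) (C := C) (tap := tap) i j))
  have h2 := kd_iff (N := N) (C := C) (tap := tap) i j
  unfold ok
  dsimp only
  rw [h1.1]
  omega

theorem ok1 {i j : ℕ} : ok (kd N C tap) (i, j, 1) ↔ (1 ≤ i ∧ i ≤ N) ∧ 1 ≤ j ∧ j ≤ C + 1 := by
  have h1 := T5 _ (List.mem_range.2 (kd_lt (N := N) (C := C) (tap := tap) i j))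
  have h2 := kd_iff (N := N) (C := C) (tap := tap) i j
  unfold ok
  dsimp only
  rw [h1.2.1]
  omega

theorem ok2 {i j : ℕ} : ok (kd N C tap) (i, j, 2) ↔ (1 ≤ i ∧ i ≤ N) ∧ j ≤ C := by
  have h1 := T5 _ (List.mem_range.2 (kd_lt (N := N) (C := C) (tap := tap) i j))
  have h2 := kd_iff (N := N) (C := C) (tap := tap) i j
  unfold ok
  dsimp only
  rw [h1.2.2.1]
  omega

theorem ok3 {i j : ℕ} : ok (kd N C tap) (i, j, 3) ↔ (1 ≤ i ∧ i ≤ N) ∧ j ≤ C := by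
  have h1 := T5 _ (List.mem_range.2 (kd_lt (N := N) (C := C) (tap := tap) i j))
  have h2 := kd_iff (N := N) (C := C) (tap := tap) i j
  unfold ok
  dsimp only
  rw [h1.2.2.2.1]
  omega

theorem ok4 {i j : ℕ} : ok (kd N C tap) (i, j, 4) ↔ (1 ≤ i ∧ i ≤ N + 1) ∧ 1 ≤ j ∧ j ≤ C := by
  have h1 := T5 _ (List.mem_range.2 (kd_lt (N := N) (C := C) (tap := tap) i j))
  have h2 := kd_iff (N := N) (C := C) (tap := tap) i j
  unfold ok
  dsimp only
  rw [h1.2.2.2.2.1]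
  omega

theorem ok5 {i j : ℕ} : ok (kd N C tap) (i, j, 5) ↔ (1 ≤ i ∧ i ≤ N + 1) ∧ 1 ≤ j ∧ j ≤ C := by
  have h1 := T5 _ (List.mem_range.2 (kd_lt (N := N) (C := C) (tap := tap) i j))
  have h2 := kd_iff (N := N) (C := C) (tap := tap) i j
  unfold ok
  dsimp only
  rw [h1.2.2.2.2.2.1]
  omega

theorem ok6 {i j : ℕ} : ok (kd N C tap) (i, j, 6) ↔ i ≤ N ∧ 1 ≤ j ∧ j ≤ C := by
  have h1 := T5 _ (List.mem_range.2 (kd_lt (N := N) (C := C) (tap := tap) i j))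
  have h2 := kd_iff (N := N) (C := C) (tap := tap) i j
  unfold ok
  dsimp only
  rw [h1.2.2.2.2.2.2.1]
  omega

theorem ok7 {i j : ℕ} : ok (kd N C tap) (i, j, 7) ↔ i ≤ N ∧ 1 ≤ j ∧ j ≤ C := by
  have h1 := T5 _ (List.mem_range.2 (kd_lt (N := N) (C := C) (tap := tap) i j))
  have h2 := kd_iff (N := N) (C := C) (tap := tap) i j
  unfold ok
  dsimp only
  rw [h1.2.2.2.2.2.2.2]
  omega

theorem ok_lt {v : Lb} (h : ok (kd N C tap) v) : v.2.2 < 120 := by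
  by_contra h1
  apply h
  unfold side
  exact List.getD_eq_default _ _
    ((T4 _ (List.mem_range.2 (kd_lt (N := N) (C := C) (tap := tap) v.1 v.2.1))).trans
      (not_lt.1 h1))

/-- the neighbour outside of the tile -/
def ext : Lb → List Lb
  | (i, j, 0) => [(i, j - 1, 2)]
  | (i, j, 1) => [(i, j - 1, 3)]
  | (i, j, 2) => [(i, j + 1, 0)]
  | (i, j, 3) => [(i, j + 1, 1)]
  | (i, j, 4) => [(i - 1, j, 6)]
  | (i, j, 5) => [(i - 1, j, 7)]
  | (i, j, 6) => [(i + 1, j, 4)]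
  | (i, j, 7) => [(i + 1, j, 5)]
  | _ => []

/-- the list of the neighbours of a vertex -/
def nbl (K : ℕ → ℕ → ℕ) (v : Lb) : List Lb :=
  (nbr (K v.1 v.2.1) v.2.2).map (fun t => (v.1, v.2.1, t)) ++ ext v

theorem ext_ge {i j t : ℕ} (h : 8 ≤ t) : ext (i, j, t) = [] := by
  obtain ⟨s, rfl⟩ := Nat.exists_eq_add_of_le h
  rw [add_comm]
  rfl

/-- the pattern part of `E0` -/
theorem bpat_iff {i j t i' j' t' : ℕ} :
    (∃ p ∈ bpat, t = p.1 ∧ t' = p.2.1 ∧ i' = i + p.2.2.1 ∧ j' = j + p.2.2.2) ↔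
      ((t = 2 ∧ t' = 0 ∨ t = 3 ∧ t' = 1) ∧ i' = i ∧ j' = j + 1) ∨
      ((t = 6 ∧ t' = 4 ∨ t = 7 ∧ t' = 5) ∧ i' = i + 1 ∧ j' = j) := by
  simp only [bpat, List.mem_cons, List.not_mem_nil, or_false, exists_eq_or_imp, exists_eq_left]
  omega

theorem mem_ext {i j t i' j' t' : ℕ} (h : ok (kd N C tap) (i, j, t)) :
    (i', j', t') ∈ ext (i, j, t) ↔
      (((t = 2 ∧ t' = 0 ∨ t = 3 ∧ t' = 1) ∧ i' = i ∧ j' = j + 1) ∨
      ((t = 6 ∧ t' = 4 ∨ t = 7 ∧ t' = 5) ∧ i' = i + 1 ∧ j' = j)) ∨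
      (((t' = 2 ∧ t = 0 ∨ t' = 3 ∧ t = 1) ∧ i = i' ∧ j = j' + 1) ∨
      ((t' = 6 ∧ t = 4 ∨ t' = 7 ∧ t = 5) ∧ i = i' + 1 ∧ j = j')) := by
  rcases Nat.lt_or_ge t 8 with ht | ht
  · interval_cases t
    · rw [ok0] at h
      simp only [ext, List.mem_singleton, Prod.mk.injEq, and_true]
      omega
    · rw [ok1] at h
      simp only [ext, List.mem_singleton, Prod.mk.injEq, and_true]
      omega
    · simp only [ext, List.mem_singleton, Prod.mk.injEq, true_and]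
      omega
    · simp only [ext, List.mem_singleton, Prod.mk.injEq, true_and]
      omega
    · rw [ok4] at h
      simp only [ext, List.mem_singleton, Prod.mk.injEq, and_true]
      omega
    · rw [ok5] at h
      simp only [ext, List.mem_singleton, Prod.mk.injEq, and_true]
      omega
    · simp only [ext, List.mem_singleton, Prod.mk.injEq, true_and]
      omega
    · simp only [ext, List.mem_singleton, Prod.mk.injEq, true_and]
      omega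
  · rw [ext_ge ht]
    simp only [List.not_mem_nil, false_iff]
    omega

theorem ok_ext {i j t i' j' t' : ℕ} (h : ok (kd N C tap) (i, j, t))
    (h' : (i', j', t') ∈ ext (i, j, t)) : ok (kd N C tap) (i', j', t') := by
  rw [mem_ext h] at h'
  rcases h' with (⟨⟨rfl, rfl⟩ | ⟨rfl, rfl⟩, rfl, rfl⟩ | ⟨⟨rfl, rfl⟩ | ⟨rfl, rfl⟩, rfl, rfl⟩) |
    (⟨⟨rfl, rfl⟩ | ⟨rfl, rfl⟩, rfl, rfl⟩ | ⟨⟨rfl, rfl⟩ | ⟨rfl, rfl⟩, rfl, rfl⟩) <;>
  simp only [ok0, ok1, ok2, ok3, ok4, ok5, ok6, ok7] at h ⊢ <;> omega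

/-- adjacency in terms of the list of neighbours -/
theorem adj_iff_mem {v w : Lb} (hv : ok (kd N C tap) v) :
    (GG (kd N C tap)).Adj v w ↔ w ∈ nbl (kd N C tap) v := by
  obtain ⟨i, j, t⟩ := v
  obtain ⟨i', j', t'⟩ := w
  rw [adj_iff, nbl, List.mem_append]
  have ht := ok_lt hv
  have hk := kd_lt (N := N) (C := C) (tap := tap) i j
  dsimp only at ht ⊢
  constructor
  · rintro ⟨-, hw, (⟨h1, h2, h3⟩ | h1) | (⟨h1, h2, h3⟩ | h1)⟩
    · left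
      dsimp only at h1 h2 h3
      subst h1 h2
      exact List.mem_map.2 ⟨t', (T1 _ h3).1, rfl⟩
    · right
      rw [mem_ext hv]
      left
      exact bpat_iff.1 h1
    · left
      dsimp only at h1 h2 h3
      subst h1 h2
      exact List.mem_map.2 ⟨t', (T1 _ h3).2.1, rfl⟩
    · right
      rw [mem_ext hv]
      right
      exact bpat_iff.1 h1
  · rintro (h | h)
    · obtain ⟨s, hs, h1⟩ := List.mem_map.1 h
      simp only [Prod.mk.injEq] at h1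
      obtain ⟨rfl, rfl, rfl⟩ := h1
      refine ⟨hv, ?_, ?_⟩
      · rcases T2 _ (List.mem_range.2 hk) _ (List.mem_range.2 ht) _ hs with h2 | h2
        · have := (T1 _ h2).2.2.2
          unfold ok
          dsimp only at this ⊢
          omega
        · have := (T1 _ h2).2.2.1
          unfold ok
          dsimp only at this ⊢
          omega
      · rcases T2 _ (List.mem_range.2 hk) _ (List.mem_range.2 ht) _ hs with h2 | h2
        · exact Or.inl (Or.inl ⟨rfl, rfl, h2⟩)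
        · exact Or.inr (Or.inl ⟨rfl, rfl, h2⟩)
    · refine ⟨hv, ok_ext hv h, ?_⟩
      rw [mem_ext hv] at h
      rcases h with h | h
      · exact Or.inl (Or.inr (bpat_iff.2 h))
      · exact Or.inr (Or.inr (bpat_iff.2 h))

theorem ext_length {i j t : ℕ} : (ext (i, j, t)).length = if t < 8 then 1 else 0 := by
  rcases Nat.lt_or_ge t 8 with ht | ht
  · rw [if_pos ht]
    interval_cases t <;> rfl
  · rw [ext_ge ht, if_neg (by omega)]
    rfl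

theorem nbl_length {v : Lb} (hv : ok (kd N C tap) v) : (nbl (kd N C tap) v).length = 3 := by
  obtain ⟨i, j, t⟩ := v
  unfold nbl
  rw [List.length_append, List.length_map, ext_length]
  exact (T3 _ (List.mem_range.2 (kd_lt i j)) _ (List.mem_range.2 (ok_lt hv)) hv).1

theorem nbl_nodup {v : Lb} (hv : ok (kd N C tap) v) : (nbl (kd N C tap) v).Nodup := by
  obtain ⟨i, j, t⟩ := v
  unfold nbl
  rw [List.nodup_append]
  refine ⟨?_, ?_, ?_⟩
  · refine List.Nodup.map ?_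
      (T3 _ (List.mem_range.2 (kd_lt i j)) _ (List.mem_range.2 (ok_lt hv)) hv).2
    intro a b h
    simpa using h
  · have h := ext_length (i := i) (j := j) (t := t)
    rw [List.nodup_iff_injective_getElem]
    intro a b _
    ext
    have h1 := a.2
    have h2 := b.2
    split_ifs at h <;> omega
  · rintro a ha ⟨i', j', t'⟩ hb rfl
    obtain ⟨s, hs, h1⟩ := List.mem_map.1 ha
    simp only [Prod.mk.injEq] at h1
    rw [mem_ext hv] at hb
    omega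

/-- the colouring -/
theorem adj_side {v w : Lb} (h : (GG (kd N C tap)).Adj v w) :
    side (kd N C tap v.1 v.2.1) v.2.2 ≠ side (kd N C tap w.1 w.2.1) w.2.2 := by
  have key : ∀ {v w : Lb}, ok (kd N C tap) v → ok (kd N C tap) w → E0 (kd N C tap) v w →
      side (kd N C tap v.1 v.2.1) v.2.2 ≠ side (kd N C tap w.1 w.2.1) w.2.2 := by
    rintro ⟨i, j, t⟩ ⟨i', j', t'⟩ hv hw (⟨h1, h2, h3⟩ | h1)
    · dsimp only at h1 h2 h3 ⊢
      subst h1 h2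
      have := (T1 _ h3).2.2
      dsimp only at this
      omega
    · have h1 := bpat_iff.1 h1
      have e1 := T6 _ (List.mem_range.2 (kd_lt (N := N) (C := C) (tap := tap) i j))
      have e2 := T6 _ (List.mem_range.2 (kd_lt (N := N) (C := C) (tap := tap) i' j'))
      unfold ok at hv hw
      dsimp only at hv hw ⊢
      rcases h1 with ⟨⟨rfl, rfl⟩ | ⟨rfl, rfl⟩, -, -⟩ | ⟨⟨rfl, rfl⟩ | ⟨rfl, rfl⟩, -, -⟩
      · rw [e1.2.2.1 hv, e2.1 hw]
        omega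
      · rw [e1.2.2.2.1 hv, e2.2.1 hw]
        omega
      · rw [e1.2.2.2.2.2.2.1 hv, e2.2.2.2.2.1 hw]
        omega
      · rw [e1.2.2.2.2.2.2.2 hv, e2.2.2.2.2.2.1 hw]
        omega
  obtain ⟨h1, h2, h3 | h3⟩ := h
  · exact key h1 h2 h3
  · exact (key h2 h1 h3).symm

end Pool.Agent.H76.OP
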