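import Pool.Agent.H76.OP.Geo
import Pool.Agent.H76.OP.Core
import Pool.Graph.R_pool_sql_team_seeded_9f66d723.Z85.LMD.Plane2

/-!
# The plane drawing
-/

set_option autoImplicit false

namespace Pool.Agent.H76.OP

open Pool.Agent.Z85.LMD (sep sep_sound sep_shift rp rp_inj lf lfR seg_ge)

/-- the edges of the tiles of kind `k` and the positions of their ends -/
def geo (k : ℕ) : List (ℕ × ℕ × (ℤ × ℤ) × (ℤ × ℤ)) := gT.getD k []

/-- the position of a vertex in its tile -/
def ps (k t : ℕ) : ℤ × ℤ := (pT.getD k []).getD t (0, 0)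

theorem G1 : ∀ e ∈ eL, (e.2.1, e.2.2, ps e.1 e.2.1, ps e.1 e.2.2) ∈ geo e.1 := by decide +kernel

theorem G2 : ∀ k ∈ List.range 7, ∀ e ∈ geo k, (1 ≤ e.2.2.1.1 ∧ e.2.2.1.1 ≤ 83) ∧
    (1 ≤ e.2.2.1.2 ∧ e.2.2.1.2 ≤ 83) ∧ (1 ≤ e.2.2.2.1 ∧ e.2.2.2.1 ≤ 83) ∧
    (1 ≤ e.2.2.2.2 ∧ e.2.2.2.2 ≤ 83) := by decide +kernel

theorem G3 : ∀ k ∈ List.range 7, ∀ e ∈ geo k, ∀ f ∈ geo k, (e.1 = f.1 ∧ e.2.1 = f.2.1) ∨
    sep e.2.2.1 e.2.2.2 f.2.2.1 f.2.2.2 = true := by decide +kernel

theorem G4 : ∀ k ∈ List.range 7, ∀ t ∈ List.range 120, side k t ≠ 0 →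
    ∀ e ∈ geo k, sep e.2.2.1 e.2.2.2 (ps k t) (ps k t) = true := by decide +kernel

theorem G5 : ∀ k ∈ List.range 7, ∀ t ∈ List.range 120, side k t ≠ 0 →
    (1 ≤ (ps k t).1 ∧ (ps k t).1 ≤ 83) ∧ (1 ≤ (ps k t).2 ∧ (ps k t).2 ≤ 83) := by decide +kernel

theorem G6 : ∀ k ∈ List.range 7, ∀ s ∈ List.range 120, side k s ≠ 0 → ∀ t ∈ List.range 120,
    side k t ≠ 0 → ps k s = ps k t → s = t := by decide +kernel

theorem G7 : ∀ k ∈ List.range 7,
    (side k 0 ≠ 0 → ps k 0 = (1, 21)) ∧ (side k 1 ≠ 0 → ps k 1 = (1, 63)) ∧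
    (side k 2 ≠ 0 → ps k 2 = (83, 21)) ∧ (side k 3 ≠ 0 → ps k 3 = (83, 63)) ∧
    (side k 4 ≠ 0 → ps k 4 = (63, 1)) ∧ (side k 5 ≠ 0 → ps k 5 = (21, 1)) ∧
    (side k 6 ≠ 0 → ps k 6 = (63, 83)) ∧ (side k 7 ≠ 0 → ps k 7 = (21, 83)) := by decide +kernel

variable {N C : ℕ} {tap : ℕ → ℕ → Bool}

/-- the integer position of a vertex -/
def posZ (K : ℕ → ℕ → ℕ) (v : Lb) : ℤ × ℤ :=
  ps (K v.1 v.2.1) v.2.2 + (84 * (v.2.1 : ℤ), 84 * (v.1 : ℤ))

/-- the position of a vertex -/
def posL (K : ℕ → ℕ → ℕ) (v : Lb) : ℝ × ℝ := rp (posZ K v)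

theorem posZ_box {v : Lb} (hv : ok (kd N C tap) v) :
    (84 * (v.2.1 : ℤ) + 1 ≤ (posZ (kd N C tap) v).1 ∧
      (posZ (kd N C tap) v).1 ≤ 84 * (v.2.1 : ℤ) + 83) ∧
    (84 * (v.1 : ℤ) + 1 ≤ (posZ (kd N C tap) v).2 ∧
      (posZ (kd N C tap) v).2 ≤ 84 * (v.1 : ℤ) + 83) := by
  have h := G5 _ (List.mem_range.2 (kd_lt (N := N) (C := C) (tap := tap) v.1 v.2.1)) _
    (List.mem_range.2 (ok_lt hv)) hv
  unfold posZ
  simp only [Prod.fst_add, Prod.snd_add]
  omega

theorem posZ_inj {v w : Lb} (hv : ok (kd N C tap) v) (hw : ok (kd N C tap) w)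
    (h : posZ (kd N C tap) v = posZ (kd N C tap) w) : v = w := by
  have h1 := posZ_box hv
  have h2 := posZ_box hw
  obtain ⟨i, j, t⟩ := v
  obtain ⟨i', j', t'⟩ := w
  rw [h] at h1
  dsimp only at h1 h2
  have e1 : i = i' := by omega
  have e2 : j = j' := by omega
  subst e1 e2
  unfold posZ at h
  dsimp only at h
  have h3 := add_right_cancel h
  have e3 := G6 _ (List.mem_range.2 (kd_lt (N := N) (C := C) (tap := tap) i j)) _
    (List.mem_range.2 (ok_lt hv)) hv _ (List.mem_range.2 (ok_lt hw)) hw h3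
  dsimp only at e3
  rw [e3]

/-- the places of the edges -/
theorem E0_cases {v w : Lb} (hv : ok (kd N C tap) v) (hw : ok (kd N C tap) w)
    (h : E0 (kd N C tap) v w) :
    (∃ i j a b, v = (i, j, a) ∧ w = (i, j, b) ∧ (kd N C tap i j, a, b) ∈ eL) ∨
    (∃ i j y : ℤ, (y = 21 ∨ y = 63) ∧ posZ (kd N C tap) v = (84 * j + 83, 84 * i + y) ∧
      posZ (kd N C tap) w = (84 * j + 85, 84 * i + y)) ∨
    (∃ i j x : ℤ, (x = 21 ∨ x = 63) ∧ posZ (kd N C tap) v = (84 * j + x, 84 * i + 83) ∧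
      posZ (kd N C tap) w = (84 * j + x, 84 * i + 85)) := by
  obtain ⟨i, j, t⟩ := v
  obtain ⟨i', j', t'⟩ := w
  rcases h with ⟨h1, h2, h3⟩ | h1
  · dsimp only at h1 h2 h3
    subst h1 h2
    exact Or.inl ⟨i, j, t, t', rfl, rfl, h3⟩
  · have h2 := bpat_iff.1 h1
    clear h1
    dsimp only at h2
    have e1 := G7 _ (List.mem_range.2 (kd_lt (N := N) (C := C) (tap := tap) i j))
    have e2 := G7 _ (List.mem_range.2 (kd_lt (N := N) (C := C) (tap := tap) i' j'))
    unfold ok at hv hw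
    dsimp only at hv hw
    rcases h2 with ⟨⟨rfl, rfl⟩ | ⟨rfl, rfl⟩, rfl, rfl⟩ | ⟨⟨rfl, rfl⟩ | ⟨rfl, rfl⟩, rfl, rfl⟩
    · refine Or.inr (Or.inl ⟨i', j, 21, Or.inl rfl, ?_, ?_⟩)
      · unfold posZ
        dsimp only
        rw [e1.2.2.1 hv]
        simp only [Prod.mk_add_mk, Prod.mk.injEq]
        omega
      · unfold posZ
        dsimp only
        rw [e2.1 hw]
        simp only [Prod.mk_add_mk, Prod.mk.injEq]
        push_cast
        omega
    · refine Or.inr (Or.inl ⟨i', j, 63, Or.inr rfl, ?_, ?_⟩)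
      · unfold posZ
        dsimp only
        rw [e1.2.2.2.1 hv]
        simp only [Prod.mk_add_mk, Prod.mk.injEq]
        omega
      · unfold posZ
        dsimp only
        rw [e2.2.1 hw]
        simp only [Prod.mk_add_mk, Prod.mk.injEq]
        push_cast
        omega
    · refine Or.inr (Or.inr ⟨i, j', 63, Or.inr rfl, ?_, ?_⟩)
      · unfold posZ
        dsimp only
        rw [e1.2.2.2.2.2.2.1 hv]
        simp only [Prod.mk_add_mk, Prod.mk.injEq]
        omega
      · unfold posZ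
        dsimp only
        rw [e2.2.2.2.2.1 hw]
        simp only [Prod.mk_add_mk, Prod.mk.injEq]
        push_cast
        omega
    · refine Or.inr (Or.inr ⟨i, j', 21, Or.inl rfl, ?_, ?_⟩)
      · unfold posZ
        dsimp only
        rw [e1.2.2.2.2.2.2.2 hv]
        simp only [Prod.mk_add_mk, Prod.mk.injEq]
        omega
      · unfold posZ
        dsimp only
        rw [e2.2.2.2.2.2.1 hw]
        simp only [Prod.mk_add_mk, Prod.mk.injEq]
        push_cast
        omega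

/-- bounds for the points of a segment -/
theorem seg_box {A B : ℤ × ℤ} {a b c d : ℤ} (h1 : a ≤ A.1) (h2 : a ≤ B.1) (h3 : A.1 ≤ b)
    (h4 : B.1 ≤ b) (h5 : c ≤ A.2) (h6 : c ≤ B.2) (h7 : A.2 ≤ d) (h8 : B.2 ≤ d) {x : ℝ × ℝ}
    (hx : x ∈ segment ℝ (rp A) (rp B)) :
    ((a : ℝ) ≤ x.1 ∧ x.1 ≤ b) ∧ ((c : ℝ) ≤ x.2 ∧ x.2 ≤ d) := by
  have e1 := seg_ge (c := (1, 0)) (m := a) (by simp only [lf]; omega) (by simp only [lf]; omega) hx
  have e2 := seg_ge (c := (-1, 0)) (m := -b) (by simp only [lf]; omega) (by simp only [lf]; omega)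
    hx
  have e3 := seg_ge (c := (0, 1)) (m := c) (by simp only [lf]; omega) (by simp only [lf]; omega) hx
  have e4 := seg_ge (c := (0, -1)) (m := -d) (by simp only [lf]; omega) (by simp only [lf]; omega)
    hx
  unfold lfR at e1 e2 e3 e4
  push_cast at e1 e2 e3 e4
  refine ⟨⟨?_, ?_⟩, ?_, ?_⟩ <;> linarith

/-- the points of an edge in a tile -/
theorem int_box {i j a b : ℕ} (h : (kd N C tap i j, a, b) ∈ eL) {x : ℝ × ℝ}
    (hx : x ∈ segment ℝ (posL (kd N C tap) (i, j, a)) (posL (kd N C tap) (i, j, b))) :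
    ((84 * (j : ℝ) + 1 ≤ x.1 ∧ x.1 ≤ 84 * (j : ℝ) + 83) ∧
      (84 * (i : ℝ) + 1 ≤ x.2 ∧ x.2 ≤ 84 * (i : ℝ) + 83)) := by
  have h1 := G2 _ (List.mem_range.2 (kd_lt (N := N) (C := C) (tap := tap) i j)) _ (G1 _ h)
  dsimp only at h1
  have h2 := seg_box (A := posZ (kd N C tap) (i, j, a)) (B := posZ (kd N C tap) (i, j, b))
    (a := 84 * j + 1) (b := 84 * j + 83) (c := 84 * i + 1) (d := 84 * i + 83)
    (by unfold posZ; simp only [Prod.fst_add]; omega) (by unfold posZ; simp only [Prod.fst_add]; omega)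
    (by unfold posZ; simp only [Prod.fst_add]; omega) (by unfold posZ; simp only [Prod.fst_add]; omega)
    (by unfold posZ; simp only [Prod.snd_add]; omega) (by unfold posZ; simp only [Prod.snd_add]; omega)
    (by unfold posZ; simp only [Prod.snd_add]; omega) (by unfold posZ; simp only [Prod.snd_add]; omega)
    hx
  push_cast at h2
  exact h2

theorem hor_box {A B : ℤ × ℤ} {i j y : ℤ} (hA : A = (84 * j + 83, 84 * i + y))
    (hB : B = (84 * j + 85, 84 * i + y)) {x : ℝ × ℝ} (hx : x ∈ segment ℝ (rp A) (rp B)) :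
    (84 * (j : ℝ) + 83 ≤ x.1 ∧ x.1 ≤ 84 * (j : ℝ) + 85) ∧ x.2 = 84 * (i : ℝ) + y := by
  subst hA hB
  have h := seg_box (a := 84 * j + 83) (b := 84 * j + 85) (c := 84 * i + y) (d := 84 * i + y)
    (by omega) (by omega) (by omega) (by omega) le_rfl le_rfl le_rfl le_rfl hx
  push_cast at h
  exact ⟨h.1, le_antisymm h.2.2 h.2.1⟩

theorem ver_box {A B : ℤ × ℤ} {i j y : ℤ} (hA : A = (84 * j + y, 84 * i + 83))
    (hB : B = (84 * j + y, 84 * i + 85)) {x : ℝ × ℝ} (hx : x ∈ segment ℝ (rp A) (rp B)) :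
    x.1 = 84 * (j : ℝ) + y ∧ (84 * (i : ℝ) + 83 ≤ x.2 ∧ x.2 ≤ 84 * (i : ℝ) + 85) := by
  subst hA hB
  have h := seg_box (a := 84 * j + y) (b := 84 * j + y) (c := 84 * i + 83) (d := 84 * i + 85)
    le_rfl le_rfl le_rfl le_rfl (by omega) (by omega) (by omega) (by omega) hx
  push_cast at h
  exact ⟨le_antisymm h.1.2 h.1.1, h.2⟩

/-- no vertex lies on an edge of which it is not an end -/
theorem vert_edge {v w z : Lb} (hv : ok (kd N C tap) v) (hw : ok (kd N C tap) w)
    (hz : ok (kd N C tap) z) (h : E0 (kd N C tap) v w)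
    (hx : posL (kd N C tap) z ∈ segment ℝ (posL (kd N C tap) v) (posL (kd N C tap) w)) :
    z = v ∨ z = w := by
  have hb := posZ_box hz
  rcases E0_cases hv hw h with ⟨i, j, a, b, rfl, rfl, he⟩ | ⟨i, j, y, hy, e1, e2⟩ |
    ⟨i, j, y, hy, e1, e2⟩
  · have h1 := int_box he hx
    obtain ⟨i', j', t⟩ := z
    have h2 : (84 * (j : ℤ) + 1 ≤ (posZ (kd N C tap) (i', j', t)).1 ∧
        (posZ (kd N C tap) (i', j', t)).1 ≤ 84 * (j : ℤ) + 83) ∧
        (84 * (i : ℤ) + 1 ≤ (posZ (kd N C tap) (i', j', t)).2 ∧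
        (posZ (kd N C tap) (i', j', t)).2 ≤ 84 * (i : ℤ) + 83) := by
      unfold posL rp at h1
      dsimp only at h1
      exact_mod_cast h1
    dsimp only at hb
    have e1 : i = i' := by omega
    have e2 : j = j' := by omega
    subst e1 e2
    have h3 := G4 _ (List.mem_range.2 (kd_lt (N := N) (C := C) (tap := tap) i j)) t
      (List.mem_range.2 (ok_lt hz)) hz _ (G1 _ he)
    dsimp only at h3
    rw [← sep_shift _ _ _ _ (84 * (j : ℤ), 84 * (i : ℤ))] at h3
    rcases sep_sound h3 hx (left_mem_segment _ _ _) with ⟨h4, -⟩ | ⟨h4, -⟩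
    · exact Or.inl (posZ_inj hz hv (rp_inj h4))
    · exact Or.inr (posZ_inj hz hw (rp_inj h4))
  · have h1 := hor_box e1 e2 hx
    have h2 : (84 * j + 83 ≤ (posZ (kd N C tap) z).1 ∧ (posZ (kd N C tap) z).1 ≤ 84 * j + 85) ∧
        (posZ (kd N C tap) z).2 = 84 * i + y := by
      unfold posL rp at h1
      dsimp only at h1
      exact_mod_cast h1
    rcases (show (posZ (kd N C tap) z).1 = 84 * j + 83 ∨ (posZ (kd N C tap) z).1 = 84 * j + 85
      by omega) with h3 | h3
    · exact Or.inl (posZ_inj hz hv (by rw [e1]; exact Prod.ext h3 h2.2))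
    · exact Or.inr (posZ_inj hz hw (by rw [e2]; exact Prod.ext h3 h2.2))
  · have h1 := ver_box e1 e2 hx
    have h2 : (posZ (kd N C tap) z).1 = 84 * j + y ∧ (84 * i + 83 ≤ (posZ (kd N C tap) z).2 ∧
        (posZ (kd N C tap) z).2 ≤ 84 * i + 85) := by
      unfold posL rp at h1
      dsimp only at h1
      exact_mod_cast h1
    rcases (show (posZ (kd N C tap) z).2 = 84 * i + 83 ∨ (posZ (kd N C tap) z).2 = 84 * i + 85
      by omega) with h3 | h3
    · exact Or.inl (posZ_inj hz hv (by rw [e1]; exact Prod.ext h2.1 h3))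
    · exact Or.inr (posZ_inj hz hw (by rw [e2]; exact Prod.ext h2.1 h3))

/-- an edge in a tile and an edge between tiles -/
theorem meet_ih {v w v' w' : Lb} (hv : ok (kd N C tap) v) (hw : ok (kd N C tap) w)
    (hv' : ok (kd N C tap) v') (hw' : ok (kd N C tap) w') (h : E0 (kd N C tap) v w)
    {i j a b : ℕ} (e3 : v = (i, j, a)) (e4 : w = (i, j, b)) (he : (kd N C tap i j, a, b) ∈ eL)
    (hc : (∃ i j y : ℤ, (y = 21 ∨ y = 63) ∧ posZ (kd N C tap) v' = (84 * j + 83, 84 * i + y) ∧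
        posZ (kd N C tap) w' = (84 * j + 85, 84 * i + y)) ∨
      (∃ i j x : ℤ, (x = 21 ∨ x = 63) ∧ posZ (kd N C tap) v' = (84 * j + x, 84 * i + 83) ∧
        posZ (kd N C tap) w' = (84 * j + x, 84 * i + 85)))
    {x : ℝ × ℝ} (hx : x ∈ segment ℝ (posL (kd N C tap) v) (posL (kd N C tap) w))
    (hx' : x ∈ segment ℝ (posL (kd N C tap) v') (posL (kd N C tap) w')) :
    ∃ z, x = posL (kd N C tap) z ∧ (z = v ∨ z = w) ∧ (z = v' ∨ z = w') := by
  have hend : x = posL (kd N C tap) v' ∨ x = posL (kd N C tap) w' := by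
    subst e3 e4
    have h1 := int_box he hx
    rcases hc with ⟨i', j', y, hy, e1, e2⟩ | ⟨i', j', y, hy, e1, e2⟩
    · have h2 := hor_box e1 e2 hx'
      have h3 : (j : ℤ) ≤ j' + 1 := by
        have : (84 * (j : ℝ)) + 1 ≤ 84 * (j' : ℝ) + 85 := by linarith [h1.1.1, h2.1.2]
        have h4 : 84 * (j : ℤ) + 1 ≤ 84 * j' + 85 := by exact_mod_cast this
        omega
      have h3' : j' ≤ j := by
        have : (84 * (j' : ℝ)) + 83 ≤ 84 * (j : ℝ) + 83 := by linarith [h1.1.2, h2.1.1]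
        have h4 : 84 * j' + 83 ≤ 84 * (j : ℤ) + 83 := by exact_mod_cast this
        omega
      rcases (show j' = j ∨ (j : ℤ) = j' + 1 by omega) with h5 | h5
      · left
        unfold posL rp
        rw [e1]
        refine Prod.ext ?_ ?_
        · dsimp only
          push_cast
          have h6 : (j' : ℝ) = (j : ℝ) := by exact_mod_cast h5
          have := h1.1.2
          have := h2.1.1
          rw [h6] at this ⊢
          linarith
        · dsimp only
          push_cast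
          exact h2.2
      · right
        unfold posL rp
        rw [e2]
        refine Prod.ext ?_ ?_
        · dsimp only
          push_cast
          have h6 : (j : ℝ) = (j' : ℝ) + 1 := by exact_mod_cast h5
          have a1 := h1.1.1
          have a2 := h2.1.2
          rw [h6] at a1
          linarith
        · dsimp only
          push_cast
          exact h2.2
    · have h2 := ver_box e1 e2 hx'
      have h3 : (i : ℤ) ≤ i' + 1 := by
        have : (84 * (i : ℝ)) + 1 ≤ 84 * (i' : ℝ) + 85 := by linarith [h1.2.1, h2.2.2]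
        have h4 : 84 * (i : ℤ) + 1 ≤ 84 * i' + 85 := by exact_mod_cast this
        omega
      have h3' : i' ≤ i := by
        have : (84 * (i' : ℝ)) + 83 ≤ 84 * (i : ℝ) + 83 := by linarith [h1.2.2, h2.2.1]
        have h4 : 84 * i' + 83 ≤ 84 * (i : ℤ) + 83 := by exact_mod_cast this
        omega
      rcases (show i' = i ∨ (i : ℤ) = i' + 1 by omega) with h5 | h5
      · left
        unfold posL rp
        rw [e1]
        refine Prod.ext ?_ ?_
        · dsimp only
          push_cast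
          exact h2.1
        · dsimp only
          push_cast
          have h6 : (i' : ℝ) = (i : ℝ) := by exact_mod_cast h5
          have := h1.2.2
          have := h2.2.1
          rw [h6] at this ⊢
          linarith
      · right
        unfold posL rp
        rw [e2]
        refine Prod.ext ?_ ?_
        · dsimp only
          push_cast
          exact h2.1
        · dsimp only
          push_cast
          have h6 : (i : ℝ) = (i' : ℝ) + 1 := by exact_mod_cast h5
          have a1 := h1.2.1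
          have a2 := h2.2.2
          rw [h6] at a1
          linarith
  rcases hend with rfl | rfl
  · exact ⟨v', rfl, vert_edge hv hw hv' h hx, Or.inl rfl⟩
  · exact ⟨w', rfl, vert_edge hv hw hw' h hx, Or.inr rfl⟩

/-- two edges meet at most in a common end -/
theorem edge_meet {v w v' w' : Lb} (hv : ok (kd N C tap) v) (hw : ok (kd N C tap) w)
    (hv' : ok (kd N C tap) v') (hw' : ok (kd N C tap) w') (h : E0 (kd N C tap) v w)
    (h' : E0 (kd N C tap) v' w') {x : ℝ × ℝ}
    (hx : x ∈ segment ℝ (posL (kd N C tap) v) (posL (kd N C tap) w))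
    (hx' : x ∈ segment ℝ (posL (kd N C tap) v') (posL (kd N C tap) w')) :
    (v = v' ∧ w = w') ∨ ∃ z, x = posL (kd N C tap) z ∧ (z = v ∨ z = w) ∧ (z = v' ∨ z = w') := by
  rcases E0_cases hv hw h with ⟨i, j, a, b, e1, e2, he⟩ | hc
  · rcases E0_cases hv' hw' h' with ⟨i', j', a', b', e1', e2', he'⟩ | hc'
    · subst e1 e2 e1' e2'
      have h1 := int_box he hx
      have h2 := int_box he' hx'
      have ei : i = i' := by
        have a1 : (84 * (i : ℝ)) + 1 ≤ 84 * (i' : ℝ) + 83 := by linarith [h1.2.1, h2.2.2]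
        have a2 : (84 * (i' : ℝ)) + 1 ≤ 84 * (i : ℝ) + 83 := by linarith [h1.2.2, h2.2.1]
        have b1 : 84 * i + 1 ≤ 84 * i' + 83 := by exact_mod_cast a1
        have b2 : 84 * i' + 1 ≤ 84 * i + 83 := by exact_mod_cast a2
        omega
      have ej : j = j' := by
        have a1 : (84 * (j : ℝ)) + 1 ≤ 84 * (j' : ℝ) + 83 := by linarith [h1.1.1, h2.1.2]
        have a2 : (84 * (j' : ℝ)) + 1 ≤ 84 * (j : ℝ) + 83 := by linarith [h1.1.2, h2.1.1]
        have b1 : 84 * j + 1 ≤ 84 * j' + 83 := by exact_mod_cast a1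
        have b2 : 84 * j' + 1 ≤ 84 * j + 83 := by exact_mod_cast a2
        omega
      subst ei ej
      rcases G3 _ (List.mem_range.2 (kd_lt (N := N) (C := C) (tap := tap) i j)) _ (G1 _ he) _
        (G1 _ he') with ⟨h3, h4⟩ | h3
      · dsimp only at h3 h4
        left
        rw [h3, h4]
        exact ⟨rfl, rfl⟩
      · dsimp only at h3
        rw [← sep_shift _ _ _ _ (84 * (j : ℤ), 84 * (i : ℤ))] at h3
        right
        rcases sep_sound h3 hx hx' with ⟨h4, h5⟩ | ⟨h4, h5⟩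
        · refine ⟨(i, j, a), h4, Or.inl rfl, ?_⟩
          rcases h5 with h5 | h5
          · exact Or.inl (posZ_inj hv hv' h5)
          · exact Or.inr (posZ_inj hv hw' h5)
        · refine ⟨(i, j, b), h4, Or.inr rfl, ?_⟩
          rcases h5 with h5 | h5
          · exact Or.inl (posZ_inj hw hv' h5)
          · exact Or.inr (posZ_inj hw hw' h5)
    · exact Or.inr (meet_ih hv hw hv' hw' h e1 e2 he hc' hx hx')
  · rcases E0_cases hv' hw' h' with ⟨i', j', a', b', e1', e2', he'⟩ | hc'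
    · obtain ⟨z, z1, z2, z3⟩ := meet_ih hv' hw' hv hw h' e1' e2' he' hc hx' hx
      exact Or.inr ⟨z, z1, z3, z2⟩
    · left
      rcases hc with ⟨i, j, y, hy, e1, e2⟩ | ⟨i, j, y, hy, e1, e2⟩ <;>
      rcases hc' with ⟨i', j', y', hy', e1', e2'⟩ | ⟨i', j', y', hy', e1', e2'⟩
      · have h1 := hor_box e1 e2 hx
        have h2 := hor_box e1' e2' hx'
        have h3 : 84 * i + y = 84 * i' + y' := by
          have : 84 * (i : ℝ) + y = 84 * (i' : ℝ) + y' := h1.2.symm.trans h2.2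
          exact_mod_cast this
        have h4 : 84 * j + 83 ≤ 84 * j' + 85 := by
          have : 84 * (j : ℝ) + 83 ≤ 84 * (j' : ℝ) + 85 := by linarith [h1.1.1, h2.1.2]
          exact_mod_cast this
        have h5 : 84 * j' + 83 ≤ 84 * j + 85 := by
          have : 84 * (j' : ℝ) + 83 ≤ 84 * (j : ℝ) + 85 := by linarith [h1.1.2, h2.1.1]
          exact_mod_cast this
        have h6 : j = j' := by omega
        subst h6
        exact ⟨posZ_inj hv hv' (by rw [e1, e1', h3]), posZ_inj hw hw' (by rw [e2, e2', h3])⟩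
      · exfalso
        have h1 := hor_box e1 e2 hx
        have h2 := ver_box e1' e2' hx'
        have h3 : 84 * i' + 83 ≤ 84 * i + y := by
          have : 84 * (i' : ℝ) + 83 ≤ 84 * (i : ℝ) + y := by linarith [h1.2, h2.2.1]
          exact_mod_cast this
        have h4 : 84 * i + y ≤ 84 * i' + 85 := by
          have : 84 * (i : ℝ) + y ≤ 84 * (i' : ℝ) + 85 := by linarith [h1.2, h2.2.2]
          exact_mod_cast this
        omega
      · exfalso
        have h1 := ver_box e1 e2 hx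
        have h2 := hor_box e1' e2' hx'
        have h3 : 84 * i + 83 ≤ 84 * i' + y' := by
          have : 84 * (i : ℝ) + 83 ≤ 84 * (i' : ℝ) + y' := by linarith [h2.2, h1.2.1]
          exact_mod_cast this
        have h4 : 84 * i' + y' ≤ 84 * i + 85 := by
          have : 84 * (i' : ℝ) + y' ≤ 84 * (i : ℝ) + 85 := by linarith [h2.2, h1.2.2]
          exact_mod_cast this
        omega
      · have h1 := ver_box e1 e2 hx
        have h2 := ver_box e1' e2' hx'
        have h3 : 84 * j + y = 84 * j' + y' := by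
          have : 84 * (j : ℝ) + y = 84 * (j' : ℝ) + y' := h1.1.symm.trans h2.1
          exact_mod_cast this
        have h4 : 84 * i + 83 ≤ 84 * i' + 85 := by
          have : 84 * (i : ℝ) + 83 ≤ 84 * (i' : ℝ) + 85 := by linarith [h1.2.1, h2.2.2]
          exact_mod_cast this
        have h5 : 84 * i' + 83 ≤ 84 * i + 85 := by
          have : 84 * (i' : ℝ) + 83 ≤ 84 * (i : ℝ) + 85 := by linarith [h1.2.2, h2.2.1]
          exact_mod_cast this
        have h6 : i = i' := by omega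
        subst h6
        exact ⟨posZ_inj hv hv' (by rw [e1, e1', h3]), posZ_inj hw hw' (by rw [e2, e2', h3])⟩

end Pool.Agent.H76.OP
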