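import Pool.Agent.H76.OP.Grid
import Pool.Agent.H76.OP.Plane

/-!
# From labels to `Fin n`
-/

set_option autoImplicit false

namespace Pool.Agent.H76.OP

open Pool.Agent.Z85.LMD (IsPlaneDrawing IsPlanar rp rp_inj)

/-- no two vertices of `S` have a common neighbour -/
def IsOP {V : Type} (G : SimpleGraph V) (S : Finset V) : Prop :=
  ∀ u ∈ S, ∀ v ∈ S, u ≠ v → Disjoint (G.neighborSet u) (G.neighborSet v)

/-- in a cubic graph, the open packings with at least `n / 3` elements are perfect -/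
theorem packing_iff {n : ℕ} (G : SimpleGraph (Fin n)) (hc : ∀ v, (G.neighborSet v).ncard = 3) :
    (∃ S : Finset (Fin n), IsOP G S ∧ (n + 2) / 3 ≤ S.card) ↔
      ∃ S : Finset (Fin n), ∀ w, ∃! u, u ∈ S ∧ G.Adj w u := by
  classical
  have hcard : ∀ v, (Finset.univ.filter (fun w => G.Adj v w)).card = 3 := by
    intro v
    rw [← hc v, ← Set.ncard_coe_finset]
    congr 1
    ext w
    simp
  have hbi : ∀ S : Finset (Fin n), IsOP G S →
      (S.biUnion (fun v => Finset.univ.filter (fun w => G.Adj v w))).card = 3 * S.card := by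
    intro S hS
    rw [Finset.card_biUnion]
    · rw [Finset.sum_congr rfl (fun v _ => hcard v), Finset.sum_const, smul_eq_mul, mul_comm]
    · intro u hu v hv huv
      have h := Set.disjoint_left.1 (hS u hu v hv huv)
      refine Finset.disjoint_left.2 fun w hw hw' => ?_
      rw [Finset.mem_filter] at hw hw'
      exact h (by simpa using hw.2) (by simpa using hw'.2)
  constructor
  · rintro ⟨S, hS, hk⟩
    refine ⟨S, fun w => ?_⟩
    have h1 := hbi S hS
    have h2 : S.biUnion (fun v => Finset.univ.filter (fun w => G.Adj v w)) = Finset.univ := by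
      apply Finset.eq_univ_of_card
      have h3 := Finset.card_le_univ
        (S.biUnion (fun v => Finset.univ.filter (fun w => G.Adj v w)))
      rw [Fintype.card_fin] at h3 ⊢
      omega
    have h3 : w ∈ S.biUnion (fun v => Finset.univ.filter (fun w => G.Adj v w)) := by
      rw [h2]
      exact Finset.mem_univ w
    rw [Finset.mem_biUnion] at h3
    obtain ⟨u, hu, hw⟩ := h3
    rw [Finset.mem_filter] at hw
    refine ⟨u, ⟨hu, hw.2.symm⟩, ?_⟩
    rintro v ⟨hv, hwv⟩
    by_contra hne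
    have h4 := Set.disjoint_left.1 (hS v hv u hu hne)
    exact h4 (by simpa using hwv.symm) (by simpa using hw.2)
  · rintro ⟨S, hS⟩
    have hOP : IsOP G S := by
      intro u hu v hv huv
      rw [Set.disjoint_left]
      intro w hw hw'
      rw [SimpleGraph.mem_neighborSet] at hw hw'
      exact huv ((hS w).unique ⟨hu, hw.symm⟩ ⟨hv, hw'.symm⟩)
    refine ⟨S, hOP, ?_⟩
    have h1 := hbi S hOP
    have h2 : S.biUnion (fun v => Finset.univ.filter (fun w => G.Adj v w)) = Finset.univ := by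
      rw [Finset.eq_univ_iff_forall]
      intro w
      obtain ⟨u, ⟨hu, hw⟩, -⟩ := hS w
      rw [Finset.mem_biUnion]
      exact ⟨u, hu, by simpa using hw.symm⟩
    rw [h2, Finset.card_univ, Fintype.card_fin] at h1
    omega

theorem countP_eq_one {α : Type} {l : List α} (hl : l.Nodup) (p : α → Bool) :
    l.countP p = 1 ↔ ∃! x, x ∈ l ∧ p x = true := by
  rw [List.countP_eq_length_filter, List.length_eq_one_iff]
  constructor
  · rintro ⟨a, ha⟩
    refine ⟨a, ?_, ?_⟩
    · have : a ∈ l.filter p := by rw [ha]; simp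
      simpa using this
    · rintro b hb
      have : b ∈ l.filter p := by simpa using hb
      rw [ha] at this
      simpa using this
  · rintro ⟨a, ha, hu⟩
    have hn := hl.filter p
    have hm : ∀ b ∈ l.filter p, b = a := fun b hb => hu b (by simpa using hb)
    have ha' : a ∈ l.filter p := by simpa using ha
    refine ⟨a, ?_⟩
    generalize l.filter p = m at hn hm ha'
    match m with
    | [] => simp at ha'
    | [b] => rw [hm b (by simp)]
    | b :: c :: m =>
      exfalso
      have h1 := hm b (by simp)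
      have h2 := hm c (by simp)
      rw [h1, h2] at hn
      simp at hn

variable {N C : ℕ} {tap : ℕ → ℕ → Bool}

section transfer

variable {n : ℕ} {ℓ : Fin n → Lb} (hinj : Function.Injective ℓ)
  (hok : ∀ i, ok (kd N C tap) (ℓ i)) (hall : ∀ v, ok (kd N C tap) v → ∃ i, ℓ i = v)

include hok in
theorem comap_adj (i j : Fin n) : ((GG (kd N C tap)).comap ℓ).Adj i j ↔
    ℓ j ∈ nbl (kd N C tap) (ℓ i) := by
  rw [SimpleGraph.comap_adj]
  exact adj_iff_mem (hok i)

include hok in
theorem nbl_ok {i : Fin n} {w : Lb} (h : w ∈ nbl (kd N C tap) (ℓ i)) : ok (kd N C tap) w :=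
  ((adj_iff_mem (hok i)).2 h).2.1

include hinj hok hall

theorem cubic_comap (i : Fin n) : (((GG (kd N C tap)).comap ℓ).neighborSet i).ncard = 3 := by
  classical
  rw [← Set.ncard_image_of_injective _ hinj]
  have h1 : ℓ '' (((GG (kd N C tap)).comap ℓ).neighborSet i) =
      ((nbl (kd N C tap) (ℓ i)).toFinset : Set Lb) := by
    ext w
    rw [Set.mem_image, Finset.mem_coe, List.mem_toFinset]
    constructor
    · rintro ⟨j, hj, rfl⟩
      exact (comap_adj hok i j).1 hj
    · intro hw
      obtain ⟨j, rfl⟩ := hall w (nbl_ok hok hw)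
      exact ⟨j, (comap_adj hok i j).2 hw, rfl⟩
  rw [h1, Set.ncard_coe_finset, List.toFinset_card_of_nodup (nbl_nodup (hok i)),
    nbl_length (hok i)]

theorem perfect_comap : (∃ S : Finset (Fin n), ∀ w, ∃! u, u ∈ S ∧
      ((GG (kd N C tap)).comap ℓ).Adj w u) ↔
    ∃ P : Lb → Bool, ∀ v, ok (kd N C tap) v → (nbl (kd N C tap) v).countP P = 1 := by
  classical
  constructor
  · rintro ⟨S, hS⟩
    refine ⟨fun v => decide (∃ u ∈ S, ℓ u = v), fun v hv => ?_⟩
    rw [countP_eq_one (nbl_nodup hv)]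
    obtain ⟨i, rfl⟩ := hall v hv
    obtain ⟨u, ⟨hu, hiu⟩, huni⟩ := hS i
    refine ⟨ℓ u, ⟨(comap_adj hok i u).1 hiu, by simpa using ⟨u, hu, rfl⟩⟩, ?_⟩
    rintro w ⟨hw, hwP⟩
    rw [decide_eq_true_eq] at hwP
    obtain ⟨u', hu', rfl⟩ := hwP
    rw [huni u' ⟨hu', (comap_adj hok i u').2 hw⟩]
  · rintro ⟨P, hP⟩
    refine ⟨Finset.univ.filter (fun u => P (ℓ u) = true), fun i => ?_⟩
    obtain ⟨w, ⟨hw, hwP⟩, huni⟩ := (countP_eq_one (nbl_nodup (hok i)) P).1 (hP _ (hok i))
    obtain ⟨u, rfl⟩ := hall w (nbl_ok hok hw)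
    refine ⟨u, ⟨by simpa using hwP, (comap_adj hok i u).2 hw⟩, ?_⟩
    rintro u' ⟨hu', hiu'⟩
    exact hinj (huni (ℓ u') ⟨(comap_adj hok i u').1 hiu', by simpa using hu'⟩)

end transfer

/-- the colouring with two colours -/
theorem bip_comap {U : Type} {ℓ : U → Lb} :
    ((GG (kd N C tap)).comap ℓ).Colorable 2 := by
  refine ⟨SimpleGraph.Coloring.mk (fun i =>
    if side (kd N C tap (ℓ i).1 (ℓ i).2.1) (ℓ i).2.2 = 1 then (0 : Fin 2) else 1) ?_⟩
  intro u v huv
  have h1 : (GG (kd N C tap)).Adj (ℓ u) (ℓ v) := huv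
  have h2 := adj_side h1
  obtain ⟨h3, h4, -⟩ := h1
  have h5 := T7 _ (List.mem_range.2 (kd_lt (N := N) (C := C) (tap := tap) (ℓ u).1 (ℓ u).2.1)) _
    (List.mem_range.2 (ok_lt h3))
  have h6 := T7 _ (List.mem_range.2 (kd_lt (N := N) (C := C) (tap := tap) (ℓ v).1 (ℓ v).2.1)) _
    (List.mem_range.2 (ok_lt h4))
  unfold ok at h3 h4
  by_cases h7 : side (kd N C tap (ℓ u).1 (ℓ u).2.1) (ℓ u).2.2 = 1
  · rw [if_pos h7, if_neg (by omega)]
    decide
  · rw [if_neg h7, if_pos (by omega)]
    decide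

/-- the drawing of the graph given by a list of labels -/
theorem planar_comap {U : Type} {ℓ : U → Lb} (hinj : Function.Injective ℓ)
    (hok : ∀ i, ok (kd N C tap) (ℓ i)) : IsPlanar ((GG (kd N C tap)).comap ℓ) := by
  refine ⟨fun i => posL (kd N C tap) (ℓ i), ?_, ?_, ?_⟩
  · intro i j h
    exact hinj (posZ_inj (hok i) (hok j) (rp_inj h))
  · intro u v w huv hw
    obtain ⟨-, -, h | h⟩ := huv
    · rcases vert_edge (hok u) (hok v) (hok w) h hw with h1 | h1
      · exact Or.inl (hinj h1)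
      · exact Or.inr (hinj h1)
    · rw [segment_symm] at hw
      rcases vert_edge (hok v) (hok u) (hok w) h hw with h1 | h1
      · exact Or.inr (hinj h1)
      · exact Or.inl (hinj h1)
  · intro u v u' v' huv huv' hne x hx hx'
    have key : ∀ a b a' b' : U, E0 (kd N C tap) (ℓ a) (ℓ b) → E0 (kd N C tap) (ℓ a') (ℓ b') →
        s(a, b) ≠ s(a', b') →
        x ∈ segment ℝ (posL (kd N C tap) (ℓ a)) (posL (kd N C tap) (ℓ b)) →
        x ∈ segment ℝ (posL (kd N C tap) (ℓ a')) (posL (kd N C tap) (ℓ b')) →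
        ∃ w, x = posL (kd N C tap) (ℓ w) ∧ (w = a ∨ w = b) ∧ (w = a' ∨ w = b') := by
      intro a b a' b' h1 h2 h3 h4 h5
      rcases edge_meet (hok a) (hok b) (hok a') (hok b') h1 h2 h4 h5 with ⟨h6, h7⟩ |
        ⟨z, h6, h7, h8⟩
      · exact (h3 (by rw [hinj h6, hinj h7])).elim
      · rcases h7 with rfl | rfl
        · exact ⟨a, h6, Or.inl rfl, by
            rcases h8 with h8 | h8
            · exact Or.inl (hinj h8)
            · exact Or.inr (hinj h8)⟩
        · exact ⟨b, h6, Or.inr rfl, by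
            rcases h8 with h8 | h8
            · exact Or.inl (hinj h8)
            · exact Or.inr (hinj h8)⟩
    obtain ⟨-, -, h | h⟩ := huv <;> obtain ⟨-, -, h' | h'⟩ := huv'
    · exact key u v u' v' h h' hne hx hx'
    · rw [segment_symm] at hx'
      obtain ⟨w, h1, h2, h3⟩ := key u v v' u' h h' (by rwa [Sym2.eq_swap (a := v')]) hx hx'
      exact ⟨w, h1, h2, h3.symm⟩
    · rw [segment_symm] at hx
      obtain ⟨w, h1, h2, h3⟩ := key v u u' v' h h' (by rwa [Sym2.eq_swap (a := v)]) hx hx'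
      exact ⟨w, h1, h2.symm, h3⟩
    · rw [segment_symm] at hx hx'
      obtain ⟨w, h1, h2, h3⟩ := key v u v' u' h h'
        (by rwa [Sym2.eq_swap (a := v), Sym2.eq_swap (a := v')]) hx hx'
      exact ⟨w, h1, h2.symm, h3.symm⟩

/-- the list of the vertices -/
def vts (N C : ℕ) (okb : Lb → Bool) : List Lb :=
  ((List.range (N + 2)) ×ˢ ((List.range (C + 2)) ×ˢ (List.range 120))).filter okb

theorem vts_nodup {okb : Lb → Bool} : (vts N C okb).Nodup := by
  unfold vts
  apply List.Nodup.filter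
  exact List.Nodup.product List.nodup_range (List.Nodup.product List.nodup_range List.nodup_range)

theorem ok_range {v : Lb} (h : ok (kd N C tap) v) : v.1 < N + 2 ∧ v.2.1 < C + 2 := by
  have h0 : side 0 v.2.2 = 0 := by
    unfold side vT
    simp
  by_contra h1
  apply h
  have h2 : kd N C tap v.1 v.2.1 = 0 := by
    unfold kd
    split_ifs <;> omega
  rw [h2, h0]

theorem mem_vts {okb : Lb → Bool} (h : ∀ v, okb v = true ↔ ok (kd N C tap) v) {v : Lb} :
    v ∈ vts N C okb ↔ ok (kd N C tap) v := by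
  obtain ⟨i, j, t⟩ := v
  unfold vts
  rw [List.mem_filter, h, List.mem_product, List.mem_product, List.mem_range, List.mem_range,
    List.mem_range]
  constructor
  · exact fun h => h.2
  · intro h1
    have h2 := ok_range h1
    have h3 := ok_lt h1
    exact ⟨⟨h2.1, h2.2, h3⟩, h1⟩

end Pool.Agent.H76.OP
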