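import Mathlib

/-!
# The drawings of the tiles: table
-/

set_option autoImplicit false

namespace Pool.Agent.H76.OP

/-- the edges of the tiles with the positions of their ends -/
def gT : List (List (ℕ × ℕ × (ℤ × ℤ) × (ℤ × ℤ))) :=
  [[], [(1, 87, (1, 63), (10, 61)), (1, 108, (1, 63), (11, 67)), (2, 19, (83, 21), (73, 17)),
  (2, 40, (83, 21), (74, 23)), (5, 10, (21, 1), (23, 10)), (5, 12, (21, 1), (17, 11)), (6, 115,
  (63, 83), (67, 73)), (6, 117, (63, 83), (61, 74)), (8, 4, (60, 8), (63, 1)), (8, 11, (60, 8),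
  (61, 10)), (8, 13, (60, 8), (57, 12)), (9, 4, (66, 9), (63, 1)), (9, 11, (66, 9), (61, 10)),
  (9, 19, (66, 9), (73, 17)), (14, 11, (58, 13), (61, 10)), (14, 13, (58, 13), (57, 12)), (14,
  17, (58, 13), (56, 16)), (15, 10, (20, 14), (23, 10)), (15, 12, (20, 14), (17, 11)), (15, 35,
  (20, 14), (21, 22)), (16, 10, (28, 16), (23, 10)), (16, 21, (28, 16), (31, 18)), (16, 22,
  (28, 16), (30, 19)), (18, 13, (52, 17), (57, 12)), (18, 17, (52, 17), (56, 16)), (18, 32,
  (52, 17), (43, 21)), (20, 0, (9, 18), (1, 21)), (20, 12, (9, 18), (17, 11)), (20, 39, (9,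
  18), (10, 23)), (23, 21, (31, 19), (31, 18)), (23, 22, (31, 19), (30, 19)), (23, 24, (31,
  19), (33, 19)), (25, 21, (34, 19), (31, 18)), (25, 24, (34, 19), (33, 19)), (25, 28, (34,
  19), (37, 20)), (26, 17, (58, 19), (56, 16)), (26, 33, (58, 19), (57, 21)), (26, 34, (58,
  19), (62, 21)), (27, 24, (35, 20), (33, 19)), (27, 28, (35, 20), (37, 20)), (27, 30, (35,
  20), (35, 21)), (29, 19, (70, 20), (73, 17)), (29, 34, (70, 20), (62, 21)), (29, 40, (70,
  20), (74, 23)), (31, 28, (41, 21), (37, 20)), (31, 30, (41, 21), (35, 21)), (31, 32, (41,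
  21), (43, 21)), (36, 22, (30, 22), (30, 19)), (36, 30, (30, 22), (35, 21)), (36, 46, (30,
  22), (25, 26)), (37, 32, (52, 22), (43, 21)), (37, 33, (52, 22), (57, 21)), (37, 43, (52,
  22), (58, 25)), (38, 33, (59, 22), (57, 21)), (38, 34, (59, 22), (62, 21)), (38, 43, (59,
  22), (58, 25)), (41, 0, (8, 24), (1, 21)), (41, 39, (8, 24), (10, 23)), (41, 47, (8, 24),
  (12, 27)), (42, 35, (22, 25), (21, 22)), (42, 46, (22, 25), (25, 26)), (42, 48, (22, 25),
  (21, 27)), (44, 39, (13, 26), (10, 23)), (44, 47, (13, 26), (12, 27)), (44, 49, (13, 26),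
  (16, 28)), (45, 35, (19, 26), (21, 22)), (45, 48, (19, 26), (21, 27)), (45, 49, (19, 26),
  (16, 28)), (50, 40, (68, 28), (74, 23)), (50, 52, (68, 28), (65, 30)), (50, 54, (68, 28),
  (66, 31)), (51, 43, (62, 30), (58, 25)), (51, 52, (62, 30), (65, 30)), (51, 59, (62, 30),
  (63, 35)), (53, 52, (65, 31), (65, 30)), (53, 54, (65, 31), (66, 31)), (53, 57, (65, 31),
  (65, 33)), (55, 47, (17, 32), (12, 27)), (55, 49, (17, 32), (16, 28)), (55, 62, (17, 32),
  (21, 41)), (56, 46, (22, 32), (25, 26)), (56, 48, (22, 32), (21, 27)), (56, 62, (22, 32),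
  (21, 41)), (58, 54, (65, 34), (66, 31)), (58, 57, (65, 34), (65, 33)), (58, 61, (65, 34),
  (64, 37)), (60, 57, (64, 35), (65, 33)), (60, 59, (64, 35), (63, 35)), (60, 61, (64, 35),
  (64, 37)), (63, 59, (63, 41), (63, 35)), (63, 61, (63, 41), (64, 37)), (63, 65, (63, 41),
  (63, 43)), (64, 62, (21, 43), (21, 41)), (64, 66, (21, 43), (20, 47)), (64, 68, (21, 43),
  (21, 49)), (67, 66, (20, 49), (20, 47)), (67, 68, (20, 49), (21, 49)), (67, 70, (20, 49),
  (19, 51)), (69, 66, (19, 50), (20, 47)), (69, 70, (19, 50), (19, 51)), (69, 73, (19, 50),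
  (18, 53)), (71, 65, (62, 52), (63, 43)), (71, 79, (62, 52), (63, 57)), (71, 81, (62, 52),
  (59, 58)), (72, 65, (67, 52), (63, 43)), (72, 78, (67, 52), (68, 56)), (72, 80, (67, 52),
  (72, 57)), (74, 70, (19, 53), (19, 51)), (74, 73, (19, 53), (18, 53)), (74, 75, (19, 53),
  (19, 54)), (76, 68, (22, 54), (21, 49)), (76, 75, (22, 54), (19, 54)), (76, 84, (22, 54),
  (26, 59)), (77, 73, (16, 56), (18, 53)), (77, 75, (16, 56), (19, 54)), (77, 87, (16, 56),
  (10, 61)), (82, 78, (65, 58), (68, 56)), (82, 79, (65, 58), (63, 57)), (82, 92, (65, 58),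
  (63, 62)), (83, 78, (71, 58), (68, 56)), (83, 80, (71, 58), (72, 57)), (83, 88, (71, 58),
  (74, 61)), (85, 79, (62, 59), (63, 57)), (85, 81, (62, 59), (59, 58)), (85, 92, (62, 59),
  (63, 62)), (86, 3, (76, 60), (83, 63)), (86, 80, (76, 60), (72, 57)), (86, 88, (76, 60), (74,
  61)), (89, 84, (25, 62), (26, 59)), (89, 93, (25, 62), (22, 63)), (89, 94, (25, 62), (27,
  63)), (90, 84, (32, 62), (26, 59)), (90, 94, (32, 62), (27, 63)), (90, 95, (32, 62), (41,
  63)), (91, 81, (54, 62), (59, 58)), (91, 97, (54, 62), (49, 63)), (91, 105, (54, 62), (54,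
  65)), (96, 95, (43, 63), (41, 63)), (96, 97, (43, 63), (49, 63)), (96, 99, (43, 63), (47,
  64)), (98, 87, (14, 64), (10, 61)), (98, 93, (14, 64), (22, 63)), (98, 108, (14, 64), (11,
  67)), (100, 97, (49, 64), (49, 63)), (100, 99, (49, 64), (47, 64)), (100, 103, (49, 64), (51,
  65)), (101, 93, (26, 65), (22, 63)), (101, 94, (26, 65), (27, 63)), (101, 110, (26, 65), (28,
  68)), (102, 99, (50, 65), (47, 64)), (102, 103, (50, 65), (51, 65)), (102, 106, (50, 65),
  (53, 66)), (104, 103, (53, 65), (51, 65)), (104, 105, (53, 65), (54, 65)), (104, 106, (53,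
  65), (53, 66)), (107, 3, (75, 66), (83, 63)), (107, 88, (75, 66), (74, 61)), (107, 115, (75,
  66), (67, 73)), (109, 95, (32, 67), (41, 63)), (109, 110, (32, 67), (28, 68)), (109, 114,
  (32, 67), (27, 72)), (111, 105, (56, 68), (54, 65)), (111, 106, (56, 68), (53, 66)), (111,
  117, (56, 68), (61, 74)), (112, 92, (64, 70), (63, 62)), (112, 115, (64, 70), (67, 73)),
  (112, 117, (64, 70), (61, 74)), (113, 110, (26, 71), (28, 68)), (113, 114, (26, 71), (27,
  72)), (113, 116, (26, 71), (23, 74)), (118, 7, (18, 75), (21, 83)), (118, 108, (18, 75), (11,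
  67)), (118, 116, (18, 75), (23, 74)), (119, 7, (24, 76), (21, 83)), (119, 114, (24, 76), (27,
  72)), (119, 116, (24, 76), (23, 74))], [(1, 15, (1, 63), (16, 49)), (1, 23, (1, 63), (13,
  70)), (2, 4, (83, 21), (63, 1)), (2, 10, (83, 21), (74, 27)), (5, 0, (21, 1), (1, 21)), (5,
  9, (21, 1), (27, 22)), (6, 30, (63, 83), (58, 73)), (6, 35, (63, 83), (48, 79)), (8, 4, (66,
  20), (63, 1)), (8, 10, (66, 20), (74, 27)), (8, 12, (66, 20), (61, 32)), (11, 0, (14, 31),
  (1, 21)), (11, 9, (14, 31), (27, 22)), (11, 15, (14, 31), (16, 49)), (13, 9, (45, 35), (27,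
  22)), (13, 12, (45, 35), (61, 32)), (13, 16, (45, 35), (46, 50)), (14, 3, (73, 41), (83,
  63)), (14, 10, (73, 41), (74, 27)), (14, 12, (73, 41), (61, 32)), (17, 15, (31, 54), (16,
  49)), (17, 16, (31, 54), (46, 50)), (17, 19, (31, 54), (32, 63)), (18, 3, (62, 62), (83,
  63)), (18, 16, (62, 62), (46, 50)), (18, 30, (62, 62), (58, 73)), (20, 19, (31, 67), (32,
  63)), (20, 22, (31, 67), (34, 69)), (20, 24, (31, 67), (26, 70)), (21, 19, (35, 68), (32,
  63)), (21, 22, (35, 68), (34, 69)), (21, 27, (35, 68), (40, 71)), (25, 23, (20, 71), (13,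
  70)), (25, 24, (20, 71), (26, 70)), (25, 29, (20, 71), (22, 73)), (26, 22, (35, 71), (34,
  69)), (26, 27, (35, 71), (40, 71)), (26, 31, (35, 71), (32, 74)), (28, 24, (26, 72), (26,
  70)), (28, 29, (26, 72), (22, 73)), (28, 31, (26, 72), (32, 74)), (32, 27, (49, 74), (40,
  71)), (32, 30, (49, 74), (58, 73)), (32, 35, (49, 74), (48, 79)), (33, 7, (19, 75), (21,
  83)), (33, 23, (19, 75), (13, 70)), (33, 29, (19, 75), (22, 73)), (34, 7, (34, 79), (21,
  83)), (34, 31, (34, 79), (32, 74)), (34, 35, (34, 79), (48, 79))], [(2, 8, (83, 21), (48,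
  15)), (2, 11, (83, 21), (67, 33)), (9, 8, (51, 28), (48, 15)), (9, 11, (51, 28), (67, 33)),
  (9, 12, (51, 28), (39, 36)), (10, 8, (26, 32), (48, 15)), (10, 12, (26, 32), (39, 36)), (10,
  15, (26, 32), (26, 52)), (13, 12, (39, 48), (39, 36)), (13, 15, (39, 48), (26, 52)), (13, 16,
  (39, 48), (51, 56)), (14, 3, (67, 51), (83, 63)), (14, 11, (67, 51), (67, 33)), (14, 16, (67,
  51), (51, 56)), (17, 3, (48, 69), (83, 63)), (17, 15, (48, 69), (26, 52)), (17, 16, (48, 69),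
  (51, 56))], [(1, 14, (1, 63), (17, 51)), (1, 17, (1, 63), (36, 69)), (8, 0, (36, 15), (1,
  21)), (8, 9, (36, 15), (33, 28)), (8, 10, (36, 15), (58, 32)), (11, 0, (17, 33), (1, 21)),
  (11, 9, (17, 33), (33, 28)), (11, 14, (17, 33), (17, 51)), (12, 9, (45, 36), (33, 28)), (12,
  10, (45, 36), (58, 32)), (12, 13, (45, 36), (45, 48)), (15, 10, (58, 52), (58, 32)), (15, 13,
  (58, 52), (45, 48)), (15, 17, (58, 52), (36, 69)), (16, 13, (33, 56), (45, 48)), (16, 14,
  (33, 56), (17, 51)), (16, 17, (33, 56), (36, 69))], [(6, 17, (63, 83), (69, 42)), (6, 23,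
  (63, 83), (48, 70)), (9, 8, (52, 16), (32, 16)), (9, 11, (52, 16), (52, 31)), (9, 17, (52,
  16), (69, 42)), (10, 8, (32, 31), (32, 16)), (10, 12, (32, 31), (38, 38)), (10, 14, (32, 31),
  (27, 39)), (13, 11, (46, 38), (52, 31)), (13, 12, (46, 38), (38, 38)), (13, 19, (46, 38),
  (50, 45)), (15, 11, (57, 39), (52, 31)), (15, 17, (57, 39), (69, 42)), (15, 19, (57, 39),
  (50, 45)), (16, 7, (15, 42), (21, 83)), (16, 8, (15, 42), (32, 16)), (16, 14, (15, 42), (27,
  39)), (18, 12, (34, 45), (38, 38)), (18, 14, (34, 45), (27, 39)), (18, 20, (34, 45), (39,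
  58)), (21, 19, (45, 58), (50, 45)), (21, 20, (45, 58), (39, 58)), (21, 23, (45, 58), (48,
  70)), (22, 7, (36, 70), (21, 83)), (22, 20, (36, 70), (39, 58)), (22, 23, (36, 70), (48,
  70))], [(5, 8, (21, 1), (32, 16)), (5, 16, (21, 1), (15, 42)), (9, 4, (47, 16), (63, 1)), (9,
  8, (47, 16), (32, 16)), (9, 10, (47, 16), (46, 30)), (11, 8, (28, 32), (32, 16)), (11, 13,
  (28, 32), (37, 37)), (11, 16, (28, 32), (15, 42)), (12, 10, (42, 35), (46, 30)), (12, 13,
  (42, 35), (37, 37)), (12, 15, (42, 35), (43, 39)), (14, 10, (48, 38), (46, 30)), (14, 15,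
  (48, 38), (43, 39)), (14, 19, (48, 38), (56, 46)), (17, 4, (69, 42), (63, 1)), (17, 19, (69,
  42), (56, 46)), (17, 23, (69, 42), (52, 68)), (18, 13, (40, 44), (37, 37)), (18, 15, (40,
  44), (43, 39)), (18, 20, (40, 44), (40, 56)), (21, 19, (49, 56), (56, 46)), (21, 20, (49,
  56), (40, 56)), (21, 23, (49, 56), (52, 68)), (22, 16, (32, 68), (15, 42)), (22, 20, (32,
  68), (40, 56)), (22, 23, (32, 68), (52, 68))]]

end Pool.Agent.H76.OP
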