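import Pool.Agent.H76.OP.Sound

/-!
# Perfect packings of the grid
-/

set_option autoImplicit false

namespace Pool.Agent.H76.OP

variable {N C : ℕ} {tap : ℕ → ℕ → Bool}

theorem seq_unique {y s : ℕ → Bool} (h0 : s 0 = false) : ∀ N : ℕ,
    (∀ i < N, s (i + 1) = (s i || y (i + 1)) ∧ (s i && y (i + 1)) = false) →
    (s N = true → ∃! i, (1 ≤ i ∧ i ≤ N) ∧ y i = true) ∧
      (s N = false → ∀ i, 1 ≤ i → i ≤ N → y i = false)
  | 0, _ => by
    refine ⟨fun h => ?_, fun _ i h1 h2 => by omega⟩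
    rw [h0] at h
    exact absurd h (by simp)
  | N + 1, h => by
    obtain ⟨ih1, ih2⟩ := seq_unique h0 N (fun i hi => h i (by omega))
    obtain ⟨h1, h2⟩ := h N (by omega)
    constructor
    · intro h3
      cases hs : s N
      · rw [hs] at h1
        rw [h1, Bool.false_or] at h3
        refine ⟨N + 1, ⟨⟨by omega, le_rfl⟩, h3⟩, ?_⟩
        rintro i ⟨⟨a1, a2⟩, a3⟩
        by_contra h4
        have := ih2 hs i a1 (by omega)
        rw [this] at a3
        exact absurd a3 (by simp)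
      · obtain ⟨i, ⟨⟨a1, a2⟩, a3⟩, a4⟩ := ih1 hs
        refine ⟨i, ⟨⟨a1, by omega⟩, a3⟩, ?_⟩
        rintro i' ⟨⟨b1, b2⟩, b3⟩
        by_cases hb : i' = N + 1
        · subst hb
          rw [hs, b3] at h2
          exact absurd h2 (by simp)
        · exact a4 i' ⟨⟨b1, by omega⟩, b3⟩
    · intro h3 i a1 a2
      rw [h1, Bool.or_eq_false_iff] at h3
      by_cases hb : i = N + 1
      · rw [hb]
        exact h3.2
      · exact ih2 h3.1 i a1 (by omega)

theorem kd_in {i j : ℕ} (h1 : 1 ≤ i) (h2 : i ≤ N) (h3 : 1 ≤ j) (h4 : j ≤ C) :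
    kd N C tap i j = if tap i j = true then 2 else 1 := by
  unfold kd
  rw [if_neg (by omega), if_neg (by omega), if_neg (by omega), if_neg (by omega),
    if_neg (by omega), if_neg (by omega)]

section sound

variable {P : Lb → Bool} (hP : ∀ v, ok (kd N C tap) v → (nbl (kd N C tap) v).countP P = 1)

include hP

theorem row_sound {i : ℕ} (h1 : 1 ≤ i) (h2 : i ≤ N)
    (hv : ∀ j, 1 ≤ j → j ≤ C → P (i - 1, j, 6) = P (i, j, 5)) :
    ∀ j ≤ C, (P (i, j, 2) = P (i, 0, 2) ∧ P (i, j + 1, 1) = P (i, 0, 2)) ∧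
      (1 ≤ j → P (i, j, 6) = P (i + 1, j, 5) ∧
        P (i, j, 6) = (P (i - 1, j, 6) || (tap i j && P (i, 0, 2))) ∧
        (P (i - 1, j, 6) && (tap i j && P (i, 0, 2))) = false)
  | 0, _ => by
    refine ⟨⟨rfl, ?_⟩, fun h => absurd h (by omega)⟩
    have hk : kd N C tap i 0 = 3 := (kd_iff i 0).2.1.2 ⟨⟨h1, h2⟩, rfl⟩
    have h3 := tile3 (loc P i 0) (by
      have := loc_eq hP i 0
      rwa [hk] at this)
    unfold R3 at h3
    rw [beq_iff_eq] at h3
    exact h3.symm
  | j + 1, hj => by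
    obtain ⟨⟨e1, e2⟩, -⟩ := row_sound h1 h2 hv j (by omega)
    have e3 := hv (j + 1) (by omega) hj
    have hk := kd_in (N := N) (C := C) (tap := tap) h1 h2 (show 1 ≤ j + 1 by omega) hj
    have hl := loc_eq hP i (j + 1)
    cases ht : tap i (j + 1)
    · rw [ht, if_neg (by simp)] at hk
      rw [hk] at hl
      have h3 := tile1 _ hl
      unfold R1 at h3
      simp only [Bool.and_eq_true, beq_iff_eq] at h3
      obtain ⟨⟨⟨a1, a2⟩, a3⟩, a4⟩ := h3
      have a1' : P (i, j + 1, 2) = P (i, j, 2) := a1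
      have a2' : P (i, j + 1, 1) = P (i, j + 1 + 1, 1) := a2
      have a3' : P (i, j + 1, 6) = P (i - 1, j + 1, 6) := a3
      have a4' : P (i, j + 1, 5) = P (i + 1, j + 1, 5) := a4
      refine ⟨⟨a1'.trans e1, a2'.symm.trans e2⟩, fun _ => ⟨?_, ?_, ?_⟩⟩
      · rw [a3', e3, a4']
      · rw [a3']
        simp
      · simp
    · rw [ht, if_pos rfl] at hk
      rw [hk] at hl
      have h3 := tile2 _ hl
      unfold R2 at h3
      have b1 : loc P i (j + 1) 1 = loc P i (j + 1) 0 := e2.trans e1.symm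
      have b2 : loc P i (j + 1) 5 = loc P i (j + 1) 4 := e3.symm
      rw [b1, b2] at h3
      simp only [beq_self_eq_true, Bool.not_true, Bool.false_or, Bool.and_eq_true,
        beq_iff_eq] at h3
      obtain ⟨⟨⟨⟨a1, a2⟩, a3⟩, a4⟩, a5⟩ := h3
      have a1' : P (i, j + 1, 2) = P (i, j, 2) := a1
      have a2' : P (i, j + 1 + 1, 1) = P (i, j, 2) := a2
      have a3' : P (i, j + 1, 6) = P (i + 1, j + 1, 5) := a3
      have a4' : P (i, j + 1, 6) = (P (i - 1, j + 1, 6) || P (i, j, 2)) := a4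
      have a5' : (!(P (i - 1, j + 1, 6) && P (i, j, 2))) = true := a5
      refine ⟨⟨a1'.trans e1, a2'.trans e1⟩, fun _ => ⟨a3', ?_, ?_⟩⟩
      · rw [a4', e1, Bool.true_and]
      · rw [e1, Bool.not_eq_true'] at a5'
        rw [Bool.true_and]
        exact a5'

theorem grid_sound : ∃ x : ℕ → Bool, ∀ j, 1 ≤ j → j ≤ C →
    ∃! i, (1 ≤ i ∧ i ≤ N) ∧ (tap i j && x i) = true := by
  have h0 : ∀ j, 1 ≤ j → j ≤ C → P (0, j, 6) = false ∧ P (1, j, 5) = false := by
    intro j h1 h2
    have hk : kd N C tap 0 j = 5 := (kd_iff 0 j).2.2.2.1.2 ⟨rfl, h1, h2⟩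
    have h3 := tile5 (loc P 0 j) (by
      have := loc_eq hP 0 j
      rwa [hk] at this)
    unfold R5 at h3
    simp only [Bool.and_eq_true, Bool.not_eq_true'] at h3
    exact h3
  have hV : ∀ i ≤ N, ∀ j, 1 ≤ j → j ≤ C → P (i, j, 6) = P (i + 1, j, 5) := by
    intro i
    induction i with
    | zero =>
      intro _ j h1 h2
      obtain ⟨a, b⟩ := h0 j h1 h2
      rw [a, zero_add, b]
    | succ i ih =>
      intro hi j h1 h2
      exact ((row_sound hP (by omega) hi (by
        intro j' a b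
        exact ih (by omega) j' a b) j h2).2 h1).1
  refine ⟨fun i => P (i, 0, 2), fun j h1 h2 => ?_⟩
  refine (seq_unique (s := fun i => P (i, j, 6)) (y := fun i => tap i j && P (i, 0, 2))
    (h0 j h1 h2).1 N ?_).1 ?_
  · intro i hi
    exact ((row_sound hP (i := i + 1) (by omega) (by omega) (by
        intro j' a b
        exact hV i (by omega) j' a b) j h2).2 h1).2
  · have hk : kd N C tap (N + 1) j = 6 := (kd_iff (N + 1) j).2.2.2.2.2 ⟨rfl, h1, h2⟩
    have h3 := tile6 (loc P (N + 1) j) (by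
      have := loc_eq hP (N + 1) j
      rwa [hk] at this)
    unfold R6 at h3
    simp only [Bool.and_eq_true] at h3
    exact h3.1

end sound

/-! ### The packing of a solution -/

/-- the selected vertices of a tile -/
def sel (k : ℕ) (x s : Bool) : List ℕ := (selT.getD k []).getD (2 * x.toNat + s.toNat) []

/-- the signal below a tile -/
def nxt (k : ℕ) (x s : Bool) : Bool := if k = 1 then s else if k = 2 then s || x else false

/-- the value of the neighbour outside of the tile -/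
def ev (k : ℕ) (x s : Bool) (t : ℕ) : Bool :=
  if t = 0 ∨ t = 3 then x else if t = 4 then s else if t = 7 then nxt k x s else false

theorem TC : ∀ k ∈ List.range 7, ∀ x s : Bool, (k = 2 → (s && x) = false) → (k = 6 → s = true) →
    (∀ t ∈ List.range 120, side k t ≠ 0 →
      (nbr k t).countP (fun a => decide (a ∈ sel k x s)) + (ev k x s t).toNat = 1) ∧
    (side k 1 ≠ 0 → decide (1 ∈ sel k x s) = x) ∧ (side k 2 ≠ 0 → decide (2 ∈ sel k x s) = x) ∧
    (side k 5 ≠ 0 → decide (5 ∈ sel k x s) = s) ∧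
    (side k 6 ≠ 0 → decide (6 ∈ sel k x s) = nxt k x s) ∧
    decide (0 ∈ sel k x s) = false ∧ decide (3 ∈ sel k x s) = false ∧
    decide (4 ∈ sel k x s) = false ∧ decide (7 ∈ sel k x s) = false := by decide +kernel

theorem toN (b : Bool) : (if b = true then 1 else 0) = b.toNat := by cases b <;> rfl

section complete

variable {x : ℕ → Bool}

/-- the signal above the tile `(i, j)` -/
def stt (tap : ℕ → ℕ → Bool) (x : ℕ → Bool) (i j : ℕ) : Bool :=
  decide (∃ i' < i, 1 ≤ i' ∧ (tap i' j && x i') = true)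

/-- the packing -/
def PP (N C : ℕ) (tap : ℕ → ℕ → Bool) (x : ℕ → Bool) (v : Lb) : Bool :=
  decide (v.2.2 ∈ sel (kd N C tap v.1 v.2.1) (x v.1) (stt tap x v.1 v.2.1))

variable (hx : ∀ j, 1 ≤ j → j ≤ C → ∃! i, (1 ≤ i ∧ i ≤ N) ∧ (tap i j && x i) = true)

include hx

theorem valid2 {i j : ℕ} (hk : kd N C tap i j = 2) : (stt tap x i j && x i) = false := by
  obtain ⟨⟨h1, h2⟩, h3, h4⟩ := (kd_iff (N := N) (C := C) (tap := tap) i j).1.1 (Or.inr hk)
  rw [kd_in h1 h2 h3 h4] at hk
  have ht : tap i j = true := by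
    by_contra h
    rw [if_neg h] at hk
    omega
  by_contra h
  rw [Bool.not_eq_false, Bool.and_eq_true] at h
  obtain ⟨h5, h6⟩ := h
  unfold stt at h5
  rw [decide_eq_true_eq] at h5
  obtain ⟨i', a1, a2, a3⟩ := h5
  have h7 := (hx j h3 h4).unique ⟨⟨a2, by omega⟩, a3⟩ ⟨⟨h1, h2⟩, by rw [ht, h6]; rfl⟩
  omega

theorem valid6 {i j : ℕ} (hk : kd N C tap i j = 6) : stt tap x i j = true := by
  obtain ⟨rfl, h3, h4⟩ := (kd_iff (N := N) (C := C) (tap := tap) i j).2.2.2.2.1 hk
  unfold stt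
  rw [decide_eq_true_eq]
  obtain ⟨i, ⟨⟨a1, a2⟩, a3⟩, -⟩ := hx j h3 h4
  exact ⟨i, by omega, a1, a3⟩

omit hx in
theorem stt_succ {i j : ℕ} (h : i ≤ N) (h3 : 1 ≤ j) (h4 : j ≤ C) :
    nxt (kd N C tap i j) (x i) (stt tap x i j) = stt tap x (i + 1) j := by
  have key : stt tap x (i + 1) j = (stt tap x i j || (decide (1 ≤ i) && (tap i j && x i))) := by
    unfold stt
    rw [Bool.eq_iff_iff, Bool.or_eq_true, Bool.and_eq_true, decide_eq_true_eq, decide_eq_true_eq,
      decide_eq_true_eq]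
    constructor
    · rintro ⟨i', a1, a2, a3⟩
      by_cases hi : i' = i
      · subst hi
        exact Or.inr ⟨a2, a3⟩
      · exact Or.inl ⟨i', by omega, a2, a3⟩
    · rintro (⟨i', a1, a2, a3⟩ | ⟨a2, a3⟩)
      · exact ⟨i', by omega, a2, a3⟩
      · exact ⟨i, by omega, a2, a3⟩
  rw [key]
  rcases Nat.eq_zero_or_pos i with rfl | hi
  · have hk : kd N C tap 0 j = 5 := (kd_iff 0 j).2.2.2.1.2 ⟨rfl, h3, h4⟩
    rw [hk]
    simp [nxt, stt]
  · rw [kd_in hi h h3 h4]
    cases ht : tap i j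
    · rw [if_neg (by simp)]
      simp [nxt]
    · rw [if_pos rfl]
      simp [nxt, show 1 ≤ i from hi]

theorem grid_complete (v : Lb) (hv : ok (kd N C tap) v) :
    (nbl (kd N C tap) v).countP (PP N C tap x) = 1 := by
  have tc := fun i j => TC _ (List.mem_range.2 (kd_lt (N := N) (C := C) (tap := tap) i j)) (x i)
    (stt tap x i j) (valid2 hx) (valid6 hx)
  obtain ⟨i, j, t⟩ := v
  unfold nbl
  rw [List.countP_append, List.countP_map]
  refine Eq.trans ?_ ((tc i j).1 t (List.mem_range.2 (ok_lt hv)) hv)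
  congr 1
  rcases Nat.lt_or_ge t 8 with ht | ht
  · interval_cases t
    · have h := ok0.1 hv
      have h2 : ok (kd N C tap) (i, j - 1, 2) := ok2.2 (by omega)
      have := (tc i (j - 1)).2.2.1 h2
      simp [ext, ev, PP, this, toN]
    · have := (tc i (j - 1)).2.2.2.2.2.2.1
      simp [ext, ev, PP, this]
    · have := (tc i (j + 1)).2.2.2.2.2.1
      simp [ext, ev, PP, this]
    · have h := ok3.1 hv
      have h2 : ok (kd N C tap) (i, j + 1, 1) := ok1.2 (by omega)
      have := (tc i (j + 1)).2.1 h2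
      simp [ext, ev, PP, this, toN]
    · have h := ok4.1 hv
      have h2 : ok (kd N C tap) (i - 1, j, 6) := ok6.2 (by omega)
      have := (tc (i - 1) j).2.2.2.2.1 h2
      rw [stt_succ (by omega) (by omega) (by omega), show i - 1 + 1 = i by omega] at this
      simp [ext, ev, PP, this, toN]
    · have := (tc (i - 1) j).2.2.2.2.2.2.2.2
      simp [ext, ev, PP, this]
    · have := (tc (i + 1) j).2.2.2.2.2.2.2.1
      simp [ext, ev, PP, this]
    · have h := ok7.1 hv
      have h2 : ok (kd N C tap) (i + 1, j, 5) := ok5.2 (by omega)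
      have := (tc (i + 1) j).2.2.2.1 h2
      have h3 := stt_succ (N := N) (C := C) (tap := tap) (x := x) (i := i) (j := j) (by omega)
        (by omega) (by omega)
      simp [ext, ev, PP, this, toN, h3]
  · rw [ext_ge ht]
    unfold ev
    rw [if_neg (by omega), if_neg (by omega), if_neg (by omega)]
    rfl

end complete

/-- perfect packings of the grid -/
theorem grid_iff : (∃ P : Lb → Bool, ∀ v, ok (kd N C tap) v →
      (nbl (kd N C tap) v).countP P = 1) ↔
    ∃ x : ℕ → Bool, ∀ j, 1 ≤ j → j ≤ C → ∃! i, (1 ≤ i ∧ i ≤ N) ∧ (tap i j && x i) = true :=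
  ⟨fun ⟨_, hP⟩ => grid_sound hP, fun ⟨x, hx⟩ => ⟨PP N C tap x, grid_complete hx⟩⟩

end Pool.Agent.H76.OP
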