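import Pool.Agent.H76.OP.Red
import Pool.Graph.R_seed8.R542.GI.Dec

/-!
# Open packing is in NP; the reduction with graphs as values
-/

set_option autoImplicit false

namespace Pool.Agent.H76.OP

open Pool.Agent.NPC Pool.Agent.H692R2 Pool.Agent.NPC.R542 Pool.Agent.NPC.R542.GI
open Pool.Agent.H673R2 Pool.Agent.NPC.H632

/-- the problem -/
def OPP (p : FinGraph × ℕ) : Prop :=
  ∃ S : Finset (Fin p.1.n), IsOP p.1.graph S ∧ p.2 ≤ S.card

/-- the verifier -/
noncomputable def ver (q : (FinGraph × ℕ) × List Bool) : Bool :=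
  decide (q.1.2 ≤ ((List.range q.1.1.n).filter (fun i => q.2.getD i false)).length) &&
  (List.range q.1.1.n).all fun u => !(q.2.getD u false) ||
    (List.range q.1.1.n).all fun v => !(q.2.getD v false) || (decide (u = v) ||
      (List.range q.1.1.n).all fun x => !(adjB q.1.1 u x && adjB q.1.1 v x))

theorem poly_ver : Poly ver := by
  have hn : UPoly (fun q : (FinGraph × ℕ) × List Bool => q.1.1.n) :=
    upoly_n (NPC.Poly.fst (NPC.Poly.fst NPC.Poly.id))
  have h0 : Poly (fun q : (FinGraph × ℕ) × List Bool =>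
      ((List.range q.1.1.n).filter (fun i => q.2.getD i false)).length) := by
    refine NPC.Poly.length (NPC.Poly.filter (l := fun q : (FinGraph × ℕ) × List Bool =>
      List.range q.1.1.n) (p := fun q i => q.2.getD i false) (UPoly.range hn) ?_)
    exact NPC.Poly.getD (NPC.Poly.snd (NPC.Poly.fst NPC.Poly.id)) (NPC.Poly.snd NPC.Poly.id) (NPC.Poly.const false)
  refine NPC.Poly.and (NPC.Poly.decide_le (NPC.Poly.snd (NPC.Poly.fst NPC.Poly.id)) h0) ?_
  refine NPC.Poly.all (l := fun q : (FinGraph × ℕ) × List Bool => List.range q.1.1.n)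
    (UPoly.range hn) ?_
  refine NPC.Poly.or (NPC.Poly.not (NPC.Poly.getD (NPC.Poly.snd (NPC.Poly.fst NPC.Poly.id)) (NPC.Poly.snd NPC.Poly.id)
    (NPC.Poly.const false))) ?_
  refine NPC.Poly.all (l := fun x : ((FinGraph × ℕ) × List Bool) × ℕ => List.range x.1.1.1.n)
    (UPoly.range (hn.comp (NPC.Poly.fst NPC.Poly.id))) ?_
  refine NPC.Poly.or (NPC.Poly.not (NPC.Poly.getD (NPC.Poly.snd (NPC.Poly.fst (NPC.Poly.fst NPC.Poly.id))) (NPC.Poly.snd NPC.Poly.id)
    (NPC.Poly.const false))) ?_
  refine NPC.Poly.or (NPC.Poly.decide_eq (NPC.Poly.snd (NPC.Poly.fst NPC.Poly.id)) (NPC.Poly.snd NPC.Poly.id)) ?_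
  refine NPC.Poly.all (l := fun x : (((FinGraph × ℕ) × List Bool) × ℕ) × ℕ => List.range x.1.1.1.1.n)
    (UPoly.range (hn.comp (NPC.Poly.fst (NPC.Poly.fst NPC.Poly.id)))) ?_
  have g : Poly (fun x : ((((FinGraph × ℕ) × List Bool) × ℕ) × ℕ) × ℕ => x.1.1.1.1.1) :=
    NPC.Poly.fst (NPC.Poly.fst (NPC.Poly.fst (NPC.Poly.fst (NPC.Poly.fst NPC.Poly.id))))
  have u : Poly (fun x : ((((FinGraph × ℕ) × List Bool) × ℕ) × ℕ) × ℕ => x.1.1.2) :=
    NPC.Poly.snd (NPC.Poly.fst (NPC.Poly.fst NPC.Poly.id))
  have v : Poly (fun x : ((((FinGraph × ℕ) × List Bool) × ℕ) × ℕ) × ℕ => x.1.2) :=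
    NPC.Poly.snd (NPC.Poly.fst NPC.Poly.id)
  have y : Poly (fun x : ((((FinGraph × ℕ) × List Bool) × ℕ) × ℕ) × ℕ => x.2) :=
    NPC.Poly.snd NPC.Poly.id
  exact NPC.Poly.not (NPC.Poly.and (poly_adjB g u y) (poly_adjB g v y))

theorem card_filter_fin (n : ℕ) (p : ℕ → Bool) :
    (Finset.univ.filter (fun i : Fin n => p i = true)).card =
      ((List.range n).filter p).length := by
  rw [Finset.card_filter, ← Finset.sum_range (fun i => if p i = true then 1 else 0),
    ← Finset.card_filter, ← List.toFinset_card_of_nodup (List.nodup_range.filter p)]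
  congr 1
  ext i
  simp

theorem ver_iff (G : FinGraph) (k : ℕ) (w : List Bool) : ver ((G, k), w) = true ↔
    IsOP G.graph (Finset.univ.filter (fun i : Fin G.n => w.getD i false = true)) ∧
      k ≤ (Finset.univ.filter (fun i : Fin G.n => w.getD i false = true)).card := by
  rw [card_filter_fin G.n (fun i => w.getD i false)]
  unfold ver
  simp only [List.all_eq_true, List.mem_range, Bool.or_eq_true, Bool.and_eq_true,
    Bool.not_eq_true', decide_eq_true_eq]
  rw [and_comm]
  refine and_congr_left fun _ => ?_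
  constructor
  · intro h u hu v hv huv
    rw [Finset.mem_filter] at hu hv
    rw [Set.disjoint_left]
    intro x hx hx'
    rw [SimpleGraph.mem_neighborSet] at hx hx'
    rcases h u u.2 with h1 | h1
    · rw [hu.2] at h1
      simp at h1
    · rcases h1 v v.2 with h2 | h2 | h2
      · rw [hv.2] at h2
        simp at h2
      · exact huv (Fin.ext h2)
      · have h3 := h2 x x.2
        rw [(adjB_iff G u x).2 hx, (adjB_iff G v x).2 hx'] at h3
        simp at h3
  · intro h u hu
    by_cases hwu : w.getD u false = true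
    · right
      intro v hv
      by_cases hwv : w.getD v false = true
      · right
        by_cases huv : u = v
        · exact Or.inl huv
        · right
          intro x hx
          have h1 := h ⟨u, hu⟩ (by simpa using hwu) ⟨v, hv⟩ (by simpa using hwv)
            (fun e => huv (congrArg Fin.val e))
          rw [Set.disjoint_left] at h1
          by_contra h2
          rw [Bool.not_eq_false, Bool.and_eq_true] at h2
          exact h1 ((adjB_iff G ⟨u, hu⟩ ⟨x, hx⟩).1 h2.1) ((adjB_iff G ⟨v, hv⟩ ⟨x, hx⟩).1 h2.2)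
      · left
        simpa using hwv
    · left
      simpa using hwu

theorem inNP_OPP : InNPP OPP := by
  classical
  let B : ℕ := sz true + sz false
  refine inNPP_of (β := List Bool) poly_ver (Polynomial.X * Polynomial.C (B + 1) + 1) fun p => ?_
  obtain ⟨G, k⟩ := p
  constructor
  · rintro ⟨S, hS, hk⟩
    refine ⟨List.ofFn fun i : Fin G.n => decide (i ∈ S), ?_, ?_⟩
    · have h1 : ∀ a ∈ List.ofFn (fun i : Fin G.n => decide (i ∈ S)), sz a ≤ B := by
        intro a _
        cases a
        · exact Nat.le_add_left _ _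
        · exact Nat.le_add_right _ _
      have h2 := sz_le_length_mul _ B h1
      have h3 : G.n ≤ sz (G, k) := by
        have h4 := length_lt_sz G.matrix
        rw [matrix_length] at h4
        have h5 : sz G.matrix ≤ sz (G, k) := by
          change (toT G).size ≤ (T.node (toT G) (toT k)).size
          simp only [T.size, T.enc, List.length_cons, List.length_append]
          omega
        omega
      rw [List.length_ofFn] at h2
      simp only [Polynomial.eval_add, Polynomial.eval_mul, Polynomial.eval_X, Polynomial.eval_C,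
        Polynomial.eval_one]
      exact h2.trans (Nat.add_le_add_right (Nat.mul_le_mul_right _ h3) 1)
    · rw [ver_iff]
      have h1 : Finset.univ.filter (fun i : Fin G.n =>
          (List.ofFn fun i : Fin G.n => decide (i ∈ S)).getD i false = true) = S := by
        ext i
        rw [Finset.mem_filter, List.getD_eq_getElem _ _ (by rw [List.length_ofFn]; exact i.2),
          List.getElem_ofFn]
        simp
      rw [h1]
      exact ⟨hS, hk⟩
  · rintro ⟨w, _, hw⟩
    exact ⟨_, (ver_iff G k w).1 hw⟩

/-- the reduction -/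
noncomputable def instG (I : Inst) : FinGraph × ℕ :=
  (⟨(vs I).length, redG I⟩, ((vs I).length + 2) / 3)

theorem poly_instG : Poly instG := poly_inst

/-- the number of the instance is positive -/
theorem one_le_inst {I : Inst} (hI : X3CPr I) : 1 ≤ (instG I).2 := by
  have hC : nC I = 3 * I.2 := by
    unfold nC
    rw [min_eq_left hI.2.2]
  have h1 : ok (kI I) (1, 0, 2) := ok2.2 ⟨⟨le_rfl, hI.2.1.trans hI.2.2⟩, Nat.zero_le _⟩
  have h2 := List.length_pos_of_mem (mem_vs.2 h1)
  change 1 ≤ ((vs I).length + 2) / 3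
  omega

end Pool.Agent.H76.OP
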