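import Pool.Agent.H76.OP.Fin
import Pool.Graph.R_seed8.H632R2.X3C
import Pool.Graph.R_seed8.H671R2.PolyAuto
import Pool.Graph.R_seed8.H673R2.HardOn

/-!
# The reduction from exact cover by 3-sets
-/

set_option autoImplicit false

namespace Pool.Agent.H76.OP

open Pool.Agent.NPC Pool.Agent.NPC.R671 Pool.Agent.H673R2 Pool.Agent.NPC.H632
open Pool.Agent.Z85.LMD (IsPlaneDrawing IsPlanar)

/-- instances of exact cover by 3-sets -/
abbrev Inst : Type := List (ℕ × ℕ × ℕ) × ℕ

/-- the number of rows -/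
def nR (I : Inst) : ℕ := I.1.length

/-- the number of columns -/
def nC (I : Inst) : ℕ := 3 * min I.2 I.1.length

/-- the triple of row `i` contains the element `j - 1` -/
def tapB (I : Inst) (i j : ℕ) : Bool :=
  (I.1[i - 1]?).any (fun t => decide (t.1 + 1 = j) || decide (t.2.1 + 1 = j) ||
    decide (t.2.2 + 1 = j))

/-- the kinds of the tiles -/
def kI (I : Inst) (i j : ℕ) : ℕ := kd (nR I) (nC I) (tapB I) i j

/-- the existence of a vertex -/
def okB (I : Inst) (v : Lb) : Bool := decide ((vT.getD (kI I v.1 v.2.1) []).getD v.2.2 0 ≠ 0)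

theorem okB_iff (I : Inst) (v : Lb) : okB I v = true ↔ ok (kI I) v := by
  unfold okB ok side
  rw [decide_eq_true_eq]

/-- the edges, oriented -/
def e0B (I : Inst) (v w : Lb) : Bool :=
  (decide (v.1 = w.1) && decide (v.2.1 = w.2.1) &&
      decide ((kI I v.1 v.2.1, v.2.2, w.2.2) ∈ eL)) ||
    bpat.any (fun p => decide (v.2.2 = p.1) && decide (w.2.2 = p.2.1) &&
      decide (w.1 = v.1 + p.2.2.1) && decide (w.2.1 = v.2.1 + p.2.2.2))

theorem e0B_iff (I : Inst) (v w : Lb) : e0B I v w = true ↔ E0 (kI I) v w := by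
  unfold e0B E0
  rw [Bool.or_eq_true, List.any_eq_true]
  simp only [Bool.and_eq_true, decide_eq_true_eq, and_assoc]

/-- adjacency -/
def adB (I : Inst) (v w : Lb) : Bool := okB I v && okB I w && (e0B I v w || e0B I w v)

theorem adB_iff (I : Inst) (v w : Lb) : adB I v w = true ↔ (GG (kI I)).Adj v w := by
  unfold adB
  rw [adj_iff, Bool.and_eq_true, Bool.and_eq_true, Bool.or_eq_true, okB_iff, okB_iff, e0B_iff,
    e0B_iff, and_assoc]

/-- the vertices -/
def vs (I : Inst) : List Lb := vts (nR I) (nC I) (okB I)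

/-- the graph of the reduction -/
def redG (I : Inst) : SimpleGraph (Fin (vs I).length) := (GG (kI I)).comap (fun i => (vs I)[i])

theorem vs_inj (I : Inst) : Function.Injective (fun i : Fin (vs I).length => (vs I)[i]) := by
  intro i j h
  exact Fin.ext ((List.Nodup.getElem_inj_iff vts_nodup).1 h)

theorem mem_vs {I : Inst} {v : Lb} : v ∈ vs I ↔ ok (kI I) v := mem_vts (okB_iff I)

theorem vs_ok (I : Inst) (i : Fin (vs I).length) : ok (kI I) (vs I)[i] :=
  mem_vs.1 (List.getElem_mem _)

theorem exists_vs {I : Inst} {v : Lb} (h : ok (kI I) v) :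
    ∃ i : Fin (vs I).length, (vs I)[i] = v := by
  obtain ⟨i, hi, h1⟩ := List.getElem_of_mem (mem_vs.2 h)
  exact ⟨⟨i, hi⟩, h1⟩

theorem redG_planar (I : Inst) : IsPlanar (redG I) := planar_comap (vs_inj I) (vs_ok I)

theorem redG_cubic (I : Inst) (v : Fin (vs I).length) : ((redG I).neighborSet v).ncard = 3 :=
  cubic_comap (vs_inj I) (vs_ok I) (fun _ h => exists_vs h) v

theorem redG_bip (I : Inst) : (redG I).Colorable 2 := bip_comap

theorem tapB_iff {I : Inst} {i e : ℕ} (hi : i < I.1.length) :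
    tapB I (i + 1) (e + 1) = true ↔ e ∈ el I.1[i] := by
  unfold tapB
  rw [Nat.add_sub_cancel, List.getElem?_eq_getElem hi, Option.any_some]
  simp only [el, Bool.or_eq_true, decide_eq_true_eq, List.mem_cons, List.not_mem_nil, or_false]
  omega

theorem redG_iff {I : Inst} (hI : X3CPr I) :
    X3C I ↔ ∃ S : Finset (Fin (vs I).length), IsOP (redG I) S ∧
      ((vs I).length + 2) / 3 ≤ S.card := by
  classical
  rw [packing_iff _ (redG_cubic I), X3C_iff_finset hI]
  refine Iff.trans ?_ ((perfect_comap (vs_inj I) (vs_ok I) (fun _ h => exists_vs h)).trans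
    grid_iff).symm
  have hC : nC I = 3 * I.2 := by
    unfold nC
    rw [min_eq_left hI.2.2]
  rw [hC]
  constructor
  · rintro ⟨Cv, hCv, hu⟩
    refine ⟨fun i => decide (∃ t ∈ Cv, I.1.idxOf t + 1 = i), fun j hj1 hj2 => ?_⟩
    obtain ⟨e, rfl⟩ : ∃ e, j = e + 1 := ⟨j - 1, by omega⟩
    obtain ⟨t, ⟨ht, het⟩, huni⟩ := hu e (by omega)
    have hlt : I.1.idxOf t < I.1.length := List.idxOf_lt_length_of_mem (hCv t ht)
    refine ⟨I.1.idxOf t + 1, ⟨⟨by omega, by unfold nR; omega⟩, ?_⟩, ?_⟩
    · rw [Bool.and_eq_true]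
      refine ⟨?_, ?_⟩
      · rw [tapB_iff hlt, List.getElem_idxOf]
        exact het
      · rw [decide_eq_true_eq]
        exact ⟨t, ht, rfl⟩
    · rintro i ⟨⟨hi1, hi2⟩, hi3⟩
      obtain ⟨i, rfl⟩ : ∃ i', i = i' + 1 := ⟨i - 1, by omega⟩
      rw [Bool.and_eq_true, decide_eq_true_eq] at hi3
      obtain ⟨hi3, t', ht', hi4⟩ := hi3
      have hi5 : I.1.idxOf t' = i := by omega
      subst hi5
      have hlt' : I.1.idxOf t' < I.1.length := List.idxOf_lt_length_of_mem (hCv t' ht')
      rw [tapB_iff hlt', List.getElem_idxOf] at hi3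
      rw [huni t' ⟨ht', hi3⟩]
  · rintro ⟨x, hx⟩
    refine ⟨((Finset.range I.1.length).filter (fun i => x (i + 1) = true)).image
      (fun i => I.1.getD i (0, 0, 0)), ?_, ?_⟩
    · intro t ht
      rw [Finset.mem_image] at ht
      obtain ⟨i, hi, rfl⟩ := ht
      rw [Finset.mem_filter, Finset.mem_range] at hi
      rw [List.getD_eq_getElem _ _ hi.1]
      exact List.getElem_mem _
    · intro e he
      obtain ⟨i, ⟨⟨hi1, hi2⟩, hi3⟩, huni⟩ := hx (e + 1) (by omega) (by omega)
      obtain ⟨i, rfl⟩ : ∃ i', i = i' + 1 := ⟨i - 1, by omega⟩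
      rw [Bool.and_eq_true] at hi3
      have hlt : i < I.1.length := by unfold nR at hi2; omega
      refine ⟨I.1.getD i (0, 0, 0), ⟨?_, ?_⟩, ?_⟩
      · exact Finset.mem_image.2 ⟨i, Finset.mem_filter.2 ⟨Finset.mem_range.2 hlt, hi3.2⟩, rfl⟩
      · rw [List.getD_eq_getElem _ _ hlt]
        exact (tapB_iff hlt).1 hi3.1
      · rintro t ⟨ht, het⟩
        rw [Finset.mem_image] at ht
        obtain ⟨i', hi', rfl⟩ := ht
        rw [Finset.mem_filter, Finset.mem_range] at hi'
        rw [List.getD_eq_getElem _ _ hi'.1] at het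
        have h2 := huni (i' + 1) ⟨⟨by omega, by unfold nR; omega⟩, by
          rw [Bool.and_eq_true]
          exact ⟨(tapB_iff hi'.1).2 het, hi'.2⟩⟩
        have h3 : i' = i := by omega
        rw [h3]

/-! ### Polynomial time -/

theorem redG_matrix (I : Inst) :
    adjMatrix (redG I) = (vs I).map (fun u => (vs I).map (fun w => adB I u w)) := by
  classical
  unfold adjMatrix
  apply List.ext_getElem
  · simp
  · intro i h1 h2
    simp only [List.getElem_ofFn, List.getElem_map]
    apply List.ext_getElem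
    · simp
    · intro j h3 h4
      simp only [List.getElem_ofFn, List.getElem_map]
      rw [Bool.eq_iff_iff, decide_eq_true_eq, adB_iff]
      rfl

/-- the instance -/
noncomputable def inst (I : Inst) : List (List Bool) × ℕ :=
  (adjMatrix (redG I), ((vs I).length + 2) / 3)

section poly

variable {α : Type} [TEnc α]

theorem poly_tapB {I : α → Inst} {i j : α → ℕ} (hI : Poly I) (hi : Poly i) (hj : Poly j) :
    Poly (fun a => tapB (I a) (i a) (j a)) := by
  unfold tapB
  refine Poly.optAny_fp (h := fun (a : α) (t : ℕ × ℕ × ℕ) =>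
    decide (t.1 + 1 = j a) || decide (t.2.1 + 1 = j a) || decide (t.2.2 + 1 = j a))
    (by fun_prop) ?_
  fun_prop

theorem poly_nR {I : α → Inst} (hI : Poly I) : Poly (fun a => nR (I a)) := by
  unfold nR
  fun_prop

theorem poly_nC {I : α → Inst} (hI : Poly I) : Poly (fun a => nC (I a)) := by
  unfold nC
  fun_prop

theorem poly_kI {I : α → Inst} {i j : α → ℕ} (hI : Poly I) (hi : Poly i) (hj : Poly j) :
    Poly (fun a => kI (I a) (i a) (j a)) := by
  unfold kI kd
  have h1 := poly_nR hI
  have h2 := poly_nC hI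
  have h3 := poly_tapB hI hi hj
  fun_prop

theorem poly_okB {I : α → Inst} {v : α → Lb} (hI : Poly I) (hv : Poly v) :
    Poly (fun a => okB (I a) (v a)) := by
  unfold okB
  have h1 : Poly (fun a => kI (I a) (v a).1 (v a).2.1) := poly_kI hI (by fun_prop) (by fun_prop)
  fun_prop

theorem poly_e0B {I : α → Inst} {v w : α → Lb} (hI : Poly I) (hv : Poly v) (hw : Poly w) :
    Poly (fun a => e0B (I a) (v a) (w a)) := by
  unfold e0B
  have h1 : Poly (fun a => kI (I a) (v a).1 (v a).2.1) := poly_kI hI (by fun_prop) (by fun_prop)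
  have h2 : Poly (fun a => decide ((kI (I a) (v a).1 (v a).2.1, (v a).2.2, (w a).2.2) ∈ eL)) :=
    Poly.dec_mem (by fun_prop) (NPC.Poly.const _)
  have h3 : Poly (fun a => bpat.any (fun p => decide ((v a).2.2 = p.1) &&
      decide ((w a).2.2 = p.2.1) && decide ((w a).1 = (v a).1 + p.2.2.1) &&
      decide ((w a).2.1 = (v a).2.1 + p.2.2.2))) := by
    refine NPC.Poly.any (p := fun (a : α) (p : ℕ × ℕ × ℕ × ℕ) => decide ((v a).2.2 = p.1) &&
      decide ((w a).2.2 = p.2.1) && decide ((w a).1 = (v a).1 + p.2.2.1) &&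
      decide ((w a).2.1 = (v a).2.1 + p.2.2.2)) (NPC.Poly.const _) ?_
    fun_prop
  fun_prop

theorem poly_adB {I : α → Inst} {v w : α → Lb} (hI : Poly I) (hv : Poly v) (hw : Poly w) :
    Poly (fun a => adB (I a) (v a) (w a)) := by
  unfold adB
  have h1 := poly_okB hI hv
  have h2 := poly_okB hI hw
  have h3 := poly_e0B hI hv hw
  have h4 := poly_e0B hI hw hv
  fun_prop

end poly

theorem poly_vs : Poly vs := by
  unfold vs vts
  have hn : UPoly (fun I : Inst => nR I) := UPoly.length (Poly.fst Poly.id)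
  have hm : UPoly (fun I : Inst => min I.2 I.1.length) :=
    UPoly.of_le (n := fun I : Inst => I.1.length) (by fun_prop) (UPoly.length (Poly.fst Poly.id))
      (fun I => min_le_right _ _)
  have hc : UPoly (fun I : Inst => nC I) := UPoly.mul (UPoly.const 3) hm
  have h1 : Poly (fun I : Inst => List.range (nR I + 2)) := (UPoly.add hn (UPoly.const 2)).range
  have h2 : Poly (fun I : Inst => List.range (nC I + 2)) := (UPoly.add hc (UPoly.const 2)).range
  have h3 : Poly (fun x : Inst × Lb => okB x.1 x.2) := poly_okB (by fun_prop) (by fun_prop)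
  exact NPC.Poly.filter (p := fun (I : Inst) (v : Lb) => okB I v)
    (poly_product h1 (poly_product h2 (NPC.Poly.const _))) h3

theorem poly_inst : Poly inst := by
  have h0 : Poly (fun I : Inst => (vs I).map (fun u => (vs I).map (fun w => adB I u w))) := by
    have h1 : Poly (fun x : (Inst × Lb) × Lb => adB x.1.1 x.1.2 x.2) :=
      poly_adB (by fun_prop) (by fun_prop) (by fun_prop)
    have h2 : Poly (fun x : Inst × Lb => (vs x.1).map (fun w => adB x.1 x.2 w)) :=
      NPC.Poly.map (F := fun (x : Inst × Lb) (w : Lb) => adB x.1 x.2 w)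
        (poly_vs.comp (Poly.fst Poly.id)) h1
    exact NPC.Poly.map (F := fun (I : Inst) (u : Lb) => (vs I).map (fun w => adB I u w)) poly_vs h2
  have h1 : Poly (fun I : Inst => ((vs I).length + 2) / 3) := by
    have := poly_vs
    fun_prop
  refine (Poly.pair h0 h1).congr fun I => ?_
  rw [inst, redG_matrix]

end Pool.Agent.H76.OP
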