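import Pool.Agent.H76.OP.Core

/-!
# The tiles transmit the signals
-/

set_option autoImplicit false

namespace Pool.Agent.H76.OP

/-- exactly one of three -/
def one3 (a b c : Bool) : Bool := (a && !b && !c) || (!a && b && !c) || (!a && !b && c)

/-- the tests for the first entry of a list -/
def chk (c : List (ℕ × ℕ × ℕ) × List (ℕ × ℕ)) (l : List Bool) : Bool :=
  c.1.all (fun e => one3 (l.getD e.1 false) (l.getD e.2.1 false) (l.getD e.2.2 false)) &&
    c.2.all (fun e => !(l.getD e.1 false && l.getD e.2 false))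

/-- the search: do all results satisfy `p`? -/
def dfs (p : List Bool → Bool) : List (List (ℕ × ℕ × ℕ) × List (ℕ × ℕ)) → List Bool → Bool
  | [], l => p l
  | c :: cs, l => (!chk c (true :: l) || dfs p cs (true :: l)) &&
      (!chk c (false :: l) || dfs p cs (false :: l))

/-- the list of the first values in reversed order -/
def pre (w : ℕ → Bool) : ℕ → List Bool
  | 0 => []
  | n + 1 => w n :: pre w n

theorem pre_getD (w : ℕ → Bool) : ∀ (n o : ℕ), o < n → (pre w n).getD o false = w (n - 1 - o)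
  | 0, o, h => by omega
  | n + 1, 0, _ => by simp [pre]
  | n + 1, o + 1, h => by
    have h1 := pre_getD w n o (by omega)
    rw [pre, List.getD_cons_succ, h1]
    congr 1
    omega

theorem dfs_sound {p : List Bool → Bool} {w : ℕ → Bool} :
    ∀ (cs : List (List (ℕ × ℕ × ℕ) × List (ℕ × ℕ))) (k : ℕ), dfs p cs (pre w k) = true →
      (∀ m (hm : m < cs.length), chk cs[m] (pre w (k + m + 1)) = true) →
      p (pre w (k + cs.length)) = true
  | [], k, h, _ => by simpa [dfs] using h
  | c :: cs, k, h, hc => by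
    have h0 := hc 0 (by simp)
    simp only [List.getElem_cons_zero, Nat.add_zero] at h0
    have h1 : dfs p cs (pre w (k + 1)) = true := by
      unfold dfs at h
      rw [Bool.and_eq_true, Bool.or_eq_true, Bool.or_eq_true] at h
      have e : pre w (k + 1) = w k :: pre w k := rfl
      rw [e] at h0 ⊢
      cases hw : w k
      · rw [hw] at h0
        rcases h.2 with h2 | h2
        · rw [h0] at h2
          simp at h2
        · exact h2
      · rw [hw] at h0
        rcases h.1 with h2 | h2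
        · rw [h0] at h2
          simp at h2
        · exact h2
    have h2 := dfs_sound cs (k + 1) h1 (fun m hm => by
      have := hc (m + 1) (by simpa using hm)
      simpa [add_assoc, add_comm, add_left_comm] using this)
    rw [List.length_cons]
    rwa [show k + (cs.length + 1) = k + 1 + cs.length by omega]

/-- the order of the search for the tiles of kind `k` -/
def od (k : ℕ) : List ℕ := ordT.getD k []

/-- the tests -/
def sT (k : ℕ) : List (List (ℕ × ℕ × ℕ) × List (ℕ × ℕ)) := stT.getD k []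

/-- the equations -/
def qq (k : ℕ) : List (ℕ × ℕ × ℕ × ℕ) := qT.getD k []

/-- the value of the variable `b` in a result -/
def pv (k : ℕ) (l : List Bool) (b : ℕ) : Bool :=
  l.getD ((od k).length - 1 - (od k).idxOf b) false

theorem Q1 : ∀ k ∈ List.range 7, (sT k).length = (od k).length ∧
    ∀ m ∈ List.range (sT k).length,
      (∀ e ∈ ((sT k).getD m ([], [])).1, (e.1 ≤ m ∧ e.2.1 ≤ m ∧ e.2.2 ≤ m) ∧
        ∃ q ∈ qq k, q.2 = ((od k).getD (m - e.1) 0, (od k).getD (m - e.2.1) 0,
          (od k).getD (m - e.2.2) 0)) ∧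
      (∀ e ∈ ((sT k).getD m ([], [])).2, (e.1 ≤ m ∧ e.2 ≤ m) ∧
        ∃ q ∈ qq k, ((od k).getD (m - e.1) 0, (od k).getD (m - e.2) 0) ∈
          [(q.2.1, q.2.2.1), (q.2.1, q.2.2.2), (q.2.2.1, q.2.2.2)]) := by decide +kernel

theorem one3_pair {a b c : Bool} (h : one3 a b c = true) :
    (!(a && b)) = true ∧ (!(a && c)) = true ∧ (!(b && c)) = true := by
  revert h
  cases a <;> cases b <;> cases c <;> decide

/-- the relation of a tile -/
theorem tile_sound {k : ℕ} (hk : k ∈ List.range 7) (R : (ℕ → Bool) → Bool)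
    (hR : ∀ u v : ℕ → Bool, (∀ b ∈ od k, u b = v b) → R u = R v)
    (hd : dfs (fun l => R (pv k l)) (sT k) [] = true) (u : ℕ → Bool)
    (hu : ∀ q ∈ qq k, one3 (u q.2.1) (u q.2.2.1) (u q.2.2.2) = true) : R u = true := by
  obtain ⟨hl, hq⟩ := Q1 k hk
  set w : ℕ → Bool := fun m => u ((od k).getD m 0) with hw
  have h1 := dfs_sound (p := fun l => R (pv k l)) (w := w) (sT k) 0 hd (by
    intro m hm
    obtain ⟨q1, q2⟩ := hq m (List.mem_range.2 hm)
    have e0 : (sT k).getD m ([], []) = (sT k)[m] := by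
      rw [List.getD_eq_getElem?_getD, List.getElem?_eq_getElem hm]
      rfl
    rw [e0] at q1 q2
    unfold chk
    rw [Bool.and_eq_true, List.all_eq_true, List.all_eq_true]
    have hg : ∀ o, o ≤ m → (pre w (0 + m + 1)).getD o false = u ((od k).getD (m - o) 0) := by
      intro o ho
      rw [pre_getD _ _ _ (by omega), hw]
      dsimp only
      congr 2
      omega
    constructor
    · intro e he
      obtain ⟨⟨a1, a2, a3⟩, q, hq1, hq2⟩ := q1 e he
      rw [hg _ a1, hg _ a2, hg _ a3]
      have h3 := hu q hq1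
      rw [hq2] at h3
      exact h3
    · intro e he
      obtain ⟨⟨a1, a2⟩, q, hq1, hq2⟩ := q2 e he
      rw [hg _ a1, hg _ a2]
      have h3 := one3_pair (hu q hq1)
      simp only [List.mem_cons, List.not_mem_nil, or_false, Prod.mk.injEq] at hq2
      rcases hq2 with ⟨e1, e2⟩ | ⟨e1, e2⟩ | ⟨e1, e2⟩
      · rw [e1, e2]
        exact h3.1
      · rw [e1, e2]
        exact h3.2.1
      · rw [e1, e2]
        exact h3.2.2)
  rw [← h1]
  apply hR
  intro b hb
  have hi : (od k).idxOf b < (od k).length := List.idxOf_lt_length_of_mem hb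
  unfold pv
  rw [zero_add, hl, pre_getD _ _ _ (by omega), hw]
  dsimp only
  rw [show (od k).length - 1 - ((od k).length - 1 - (od k).idxOf b) = (od k).idxOf b by omega,
    List.getD_eq_getElem?_getD, List.getElem?_eq_getElem hi]
  simp

/-- crossing -/
def R1 (v : ℕ → Bool) : Bool := (v 2 == v 0) && (v 1 == v 3) && (v 6 == v 4) && (v 5 == v 7)

/-- adder -/
def R2 (v : ℕ → Bool) : Bool := !(v 1 == v 0) || !(v 5 == v 4) ||
  ((v 2 == v 0) && (v 3 == v 0) && (v 6 == v 7) && (v 6 == (v 4 || v 0)) && !(v 4 && v 0))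

/-- left side -/
def R3 (v : ℕ → Bool) : Bool := v 2 == v 3

/-- upper side -/
def R5 (v : ℕ → Bool) : Bool := !v 6 && !v 7

/-- lower side -/
def R6 (v : ℕ → Bool) : Bool := v 4 && v 5

theorem D1 : dfs (fun l => R1 (pv 1 l)) (sT 1) [] = true := by decide +kernel

theorem D2 : dfs (fun l => R2 (pv 2 l)) (sT 2) [] = true := by decide +kernel

theorem D3 : dfs (fun l => R3 (pv 3 l)) (sT 3) [] = true := by decide +kernel

theorem D5 : dfs (fun l => R5 (pv 5 l)) (sT 5) [] = true := by decide +kernel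

theorem D6 : dfs (fun l => R6 (pv 6 l)) (sT 6) [] = true := by decide +kernel

theorem tile1 (u : ℕ → Bool) (hu : ∀ q ∈ qq 1, one3 (u q.2.1) (u q.2.2.1) (u q.2.2.2) = true) :
    R1 u = true := by
  refine tile_sound (by decide) R1 (fun u v h => ?_) D1 u hu
  unfold R1
  rw [h 0 (by decide +kernel), h 1 (by decide +kernel), h 2 (by decide +kernel),
    h 3 (by decide +kernel), h 4 (by decide +kernel), h 5 (by decide +kernel),
    h 6 (by decide +kernel), h 7 (by decide +kernel)]

theorem tile2 (u : ℕ → Bool) (hu : ∀ q ∈ qq 2, one3 (u q.2.1) (u q.2.2.1) (u q.2.2.2) = true) :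
    R2 u = true := by
  refine tile_sound (by decide) R2 (fun u v h => ?_) D2 u hu
  unfold R2
  rw [h 0 (by decide +kernel), h 1 (by decide +kernel), h 2 (by decide +kernel),
    h 3 (by decide +kernel), h 4 (by decide +kernel), h 5 (by decide +kernel),
    h 6 (by decide +kernel), h 7 (by decide +kernel)]

theorem tile3 (u : ℕ → Bool) (hu : ∀ q ∈ qq 3, one3 (u q.2.1) (u q.2.2.1) (u q.2.2.2) = true) :
    R3 u = true := by
  refine tile_sound (by decide) R3 (fun u v h => ?_) D3 u hu
  unfold R3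
  rw [h 2 (by decide +kernel), h 3 (by decide +kernel)]

theorem tile5 (u : ℕ → Bool) (hu : ∀ q ∈ qq 5, one3 (u q.2.1) (u q.2.2.1) (u q.2.2.2) = true) :
    R5 u = true := by
  refine tile_sound (by decide) R5 (fun u v h => ?_) D5 u hu
  unfold R5
  rw [h 6 (by decide +kernel), h 7 (by decide +kernel)]

theorem tile6 (u : ℕ → Bool) (hu : ∀ q ∈ qq 6, one3 (u q.2.1) (u q.2.2.1) (u q.2.2.2) = true) :
    R6 u = true := by
  refine tile_sound (by decide) R6 (fun u v h => ?_) D6 u hu
  unfold R6
  rw [h 4 (by decide +kernel), h 5 (by decide +kernel)]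

/-! ### From the graph to the tiles -/

theorem Q2 : ∀ k ∈ List.range 7, ∀ q ∈ qq k, side k q.1 = 2 ∧
    nbr k q.1 ++ (if q.1 < 8 then [q.1] else []) = [q.2.1, q.2.2.1, q.2.2.2] ∧
    (∀ a ∈ nbr k q.1, a ≠ 0 ∧ a ≠ 3 ∧ a ≠ 4 ∧ a ≠ 7) ∧
    (q.1 < 8 → q.1 = 0 ∨ q.1 = 3 ∨ q.1 = 4 ∨ q.1 = 7) := by decide +kernel

/-- the variables of the tile `(i, j)` -/
def loc (P : Lb → Bool) (i j : ℕ) : ℕ → Bool
  | 0 => P (i, j - 1, 2)
  | 3 => P (i, j + 1, 1)
  | 4 => P (i - 1, j, 6)
  | 7 => P (i + 1, j, 5)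
  | t => P (i, j, t)

theorem loc_of {P : Lb → Bool} {i j t : ℕ} (h0 : t ≠ 0) (h3 : t ≠ 3) (h4 : t ≠ 4) (h7 : t ≠ 7) :
    loc P i j t = P (i, j, t) := by
  unfold loc
  split <;> first | omega | rfl

theorem loc_eq {N C : ℕ} {tap : ℕ → ℕ → Bool} {P : Lb → Bool}
    (hP : ∀ v, ok (kd N C tap) v → (nbl (kd N C tap) v).countP P = 1) (i j : ℕ) :
    ∀ q ∈ qq (kd N C tap i j),
      one3 (loc P i j q.2.1) (loc P i j q.2.2.1) (loc P i j q.2.2.2) = true := by
  intro q hq
  obtain ⟨h1, h2, h3, h4⟩ := Q2 _ (List.mem_range.2 (kd_lt i j)) q hq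
  have hok : ok (kd N C tap) (i, j, q.1) := by
    unfold ok
    dsimp only
    omega
  have h5 := hP _ hok
  have h6 : (nbl (kd N C tap) (i, j, q.1)).map P =
      [loc P i j q.2.1, loc P i j q.2.2.1, loc P i j q.2.2.2] := by
    have h7 := congrArg (List.map (loc P i j)) h2
    rw [List.map_append] at h7
    refine Eq.trans ?_ h7
    unfold nbl
    rw [List.map_append, List.map_map]
    congr 1
    · apply List.map_congr_left
      intro a ha
      obtain ⟨a0, a3, a4, a7⟩ := h3 a ha
      exact (loc_of a0 a3 a4 a7).symm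
    · by_cases h8 : q.1 < 8
      · rw [if_pos h8]
        rcases h4 h8 with h9 | h9 | h9 | h9 <;> rw [h9] <;> rfl
      · rw [if_neg h8, ext_ge (by omega)]
        rfl
  have h7 : ((nbl (kd N C tap) (i, j, q.1)).map P).countP id = 1 := by
    rw [List.countP_map]
    exact h5
  rw [h6] at h7
  revert h7
  generalize loc P i j q.2.1 = a
  generalize loc P i j q.2.2.1 = b
  generalize loc P i j q.2.2.2 = c
  cases a <;> cases b <;> cases c <;> decide

end Pool.Agent.H76.OP
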