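import Mathlib

/-!
# The tiles: tables

Kinds of tiles: `0` empty, `1` crossing, `2` adder, `3`, `4`, `5`, `6` the tiles at the left, right, upper
and lower side of the grid.  The vertices `0, …, 7` of a tile are its ends of the edges to the
neighbouring tiles.
-/

set_option autoImplicit false

namespace Pool.Agent.H76.OP

/-- the sides of the vertices of the tiles: `0` no vertex, `1` side `A`, `2` side `B` -/
def vT : List (List ℕ) :=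
  [[], [2, 1, 1, 2, 2, 1, 1, 2, 1, 1, 2, 2, 2, 2, 1, 1, 1, 2, 1, 2, 1, 2, 2, 1, 2, 1, 1, 1, 2,
  1, 2, 1, 2, 2, 2, 2, 1, 1, 1, 2, 2, 1, 1, 2, 1, 1, 2, 2, 2, 2, 1, 1, 2, 1, 2, 1, 1, 2, 1, 2,
  1, 2, 2, 1, 1, 2, 2, 1, 2, 1, 2, 1, 1, 2, 1, 2, 1, 1, 2, 2, 2, 2, 1, 1, 2, 1, 1, 2, 2, 1, 1,
  1, 2, 2, 2, 2, 1, 2, 1, 2, 1, 1, 1, 2, 1, 2, 2, 1, 2, 1, 2, 1, 1, 1, 2, 2, 2, 2, 1, 1], [2,
  1, 1, 2, 2, 1, 1, 2, 1, 2, 2, 1, 2, 1, 1, 2, 2, 1, 1, 2, 1, 1, 2, 2, 2, 1, 1, 2, 1, 2, 2, 2,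
  1, 1, 1, 2], [0, 0, 1, 2, 0, 0, 0, 0, 2, 1, 1, 2, 2, 1, 1, 2, 2, 1], [2, 1, 0, 0, 0, 0, 0, 0,
  1, 2, 2, 1, 1, 2, 2, 1, 1, 2], [0, 0, 0, 0, 0, 0, 1, 2, 2, 1, 1, 2, 2, 1, 2, 1, 1, 2, 1, 2,
  2, 1, 1, 2], [0, 0, 0, 0, 2, 1, 0, 0, 2, 1, 2, 1, 1, 2, 1, 2, 2, 1, 1, 2, 2, 1, 1, 2]]

/-- the neighbours of the vertices in their tiles -/
def nT : List (List (List ℕ)) :=
  [[], [[20, 41], [87, 108], [19, 40], [86, 107], [8, 9], [10, 12], [115, 117], [118, 119], [4,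
  11, 13], [4, 11, 19], [5, 15, 16], [8, 9, 14], [5, 15, 20], [8, 14, 18], [11, 13, 17], [10,
  12, 35], [10, 21, 22], [14, 18, 26], [13, 17, 32], [2, 9, 29], [0, 12, 39], [16, 23, 25],
  [16, 23, 36], [21, 22, 24], [23, 25, 27], [21, 24, 28], [17, 33, 34], [24, 28, 30], [25, 27,
  31], [19, 34, 40], [27, 31, 36], [28, 30, 32], [18, 31, 37], [26, 37, 38], [26, 29, 38], [15,
  42, 45], [22, 30, 46], [32, 33, 43], [33, 34, 43], [20, 41, 44], [2, 29, 50], [0, 39, 47],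
  [35, 46, 48], [37, 38, 51], [39, 47, 49], [35, 48, 49], [36, 42, 56], [41, 44, 55], [42, 45,
  56], [44, 45, 55], [40, 52, 54], [43, 52, 59], [50, 51, 53], [52, 54, 57], [50, 53, 58], [47,
  49, 62], [46, 48, 62], [53, 58, 60], [54, 57, 61], [51, 60, 63], [57, 59, 61], [58, 60, 63],
  [55, 56, 64], [59, 61, 65], [62, 66, 68], [63, 71, 72], [64, 67, 69], [66, 68, 70], [64, 67,
  76], [66, 70, 73], [67, 69, 74], [65, 79, 81], [65, 78, 80], [69, 74, 77], [70, 73, 75], [74,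
  76, 77], [68, 75, 84], [73, 75, 87], [72, 82, 83], [71, 82, 85], [72, 83, 86], [71, 85, 91],
  [78, 79, 92], [78, 80, 88], [76, 89, 90], [79, 81, 92], [3, 80, 88], [1, 77, 98], [83, 86,
  107], [84, 93, 94], [84, 94, 95], [81, 97, 105], [82, 85, 112], [89, 98, 101], [89, 90, 101],
  [90, 96, 109], [95, 97, 99], [91, 96, 100], [87, 93, 108], [96, 100, 102], [97, 99, 103],
  [93, 94, 110], [99, 103, 106], [100, 102, 104], [103, 105, 106], [91, 104, 111], [102, 104,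
  111], [3, 88, 115], [1, 98, 118], [95, 110, 114], [101, 109, 113], [105, 106, 117], [92, 115,
  117], [110, 114, 116], [109, 113, 119], [6, 107, 112], [113, 118, 119], [6, 111, 112], [7,
  108, 116], [7, 114, 116]], [[5, 11], [15, 23], [4, 10], [14, 18], [2, 8], [0, 9], [30, 35],
  [33, 34], [4, 10, 12], [5, 11, 13], [2, 8, 14], [0, 9, 15], [8, 13, 14], [9, 12, 16], [3, 10,
  12], [1, 11, 17], [13, 17, 18], [15, 16, 19], [3, 16, 30], [17, 20, 21], [19, 22, 24], [19,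
  22, 27], [20, 21, 26], [1, 25, 33], [20, 25, 28], [23, 24, 29], [22, 27, 31], [21, 26, 32],
  [24, 29, 31], [25, 28, 33], [6, 18, 32], [26, 28, 34], [27, 30, 35], [7, 23, 29], [7, 31,
  35], [6, 32, 34]], [[], [], [8, 11], [14, 17], [], [], [], [], [2, 9, 10], [8, 11, 12], [8,
  12, 15], [2, 9, 14], [9, 10, 13], [12, 15, 16], [3, 11, 16], [10, 13, 17], [13, 14, 17], [3,
  15, 16]], [[8, 11], [14, 17], [], [], [], [], [], [], [0, 9, 10], [8, 11, 12], [8, 12, 15],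
  [0, 9, 14], [9, 10, 13], [12, 15, 16], [1, 11, 16], [10, 13, 17], [13, 14, 17], [1, 15, 16]],
  [[], [], [], [], [], [], [17, 23], [16, 22], [9, 10, 16], [8, 11, 17], [8, 12, 14], [9, 13,
  15], [10, 13, 18], [11, 12, 19], [10, 16, 18], [11, 17, 19], [7, 8, 14], [6, 9, 15], [12, 14,
  20], [13, 15, 21], [18, 21, 22], [19, 20, 23], [7, 20, 23], [6, 21, 22]], [[], [], [], [],
  [9, 17], [8, 16], [], [], [5, 9, 11], [4, 8, 10], [9, 12, 14], [8, 13, 16], [10, 13, 15],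
  [11, 12, 18], [10, 15, 19], [12, 14, 18], [5, 11, 22], [4, 19, 23], [13, 15, 20], [14, 17,
  21], [18, 21, 22], [19, 20, 23], [16, 20, 23], [17, 21, 22]]]

/-- the positions of the vertices in the tiles -/
def pT : List (List (ℤ × ℤ)) :=
  [[], [(1, 21), (1, 63), (83, 21), (83, 63), (63, 1), (21, 1), (63, 83), (21, 83), (60, 8),
  (66, 9), (23, 10), (61, 10), (17, 11), (57, 12), (58, 13), (20, 14), (28, 16), (56, 16), (52,
  17), (73, 17), (9, 18), (31, 18), (30, 19), (31, 19), (33, 19), (34, 19), (58, 19), (35, 20),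
  (37, 20), (70, 20), (35, 21), (41, 21), (43, 21), (57, 21), (62, 21), (21, 22), (30, 22),
  (52, 22), (59, 22), (10, 23), (74, 23), (8, 24), (22, 25), (58, 25), (13, 26), (19, 26), (25,
  26), (12, 27), (21, 27), (16, 28), (68, 28), (62, 30), (65, 30), (65, 31), (66, 31), (17,
  32), (22, 32), (65, 33), (65, 34), (63, 35), (64, 35), (64, 37), (21, 41), (63, 41), (21,
  43), (63, 43), (20, 47), (20, 49), (21, 49), (19, 50), (19, 51), (62, 52), (67, 52), (18,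
  53), (19, 53), (19, 54), (22, 54), (16, 56), (68, 56), (63, 57), (72, 57), (59, 58), (65,
  58), (71, 58), (26, 59), (62, 59), (76, 60), (10, 61), (74, 61), (25, 62), (32, 62), (54,
  62), (63, 62), (22, 63), (27, 63), (41, 63), (43, 63), (49, 63), (14, 64), (47, 64), (49,
  64), (26, 65), (50, 65), (51, 65), (53, 65), (54, 65), (53, 66), (75, 66), (11, 67), (32,
  67), (28, 68), (56, 68), (64, 70), (26, 71), (27, 72), (67, 73), (23, 74), (61, 74), (18,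
  75), (24, 76)], [(1, 21), (1, 63), (83, 21), (83, 63), (63, 1), (21, 1), (63, 83), (21, 83),
  (66, 20), (27, 22), (74, 27), (14, 31), (61, 32), (45, 35), (73, 41), (16, 49), (46, 50),
  (31, 54), (62, 62), (32, 63), (31, 67), (35, 68), (34, 69), (13, 70), (26, 70), (20, 71),
  (35, 71), (40, 71), (26, 72), (22, 73), (58, 73), (32, 74), (49, 74), (19, 75), (34, 79),
  (48, 79)], [(0, 0), (0, 0), (83, 21), (83, 63), (0, 0), (0, 0), (0, 0), (0, 0), (48, 15),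
  (51, 28), (26, 32), (67, 33), (39, 36), (39, 48), (67, 51), (26, 52), (51, 56), (48, 69)],
  [(1, 21), (1, 63), (0, 0), (0, 0), (0, 0), (0, 0), (0, 0), (0, 0), (36, 15), (33, 28), (58,
  32), (17, 33), (45, 36), (45, 48), (17, 51), (58, 52), (33, 56), (36, 69)], [(0, 0), (0, 0),
  (0, 0), (0, 0), (0, 0), (0, 0), (63, 83), (21, 83), (32, 16), (52, 16), (32, 31), (52, 31),
  (38, 38), (46, 38), (27, 39), (57, 39), (15, 42), (69, 42), (34, 45), (50, 45), (39, 58),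
  (45, 58), (36, 70), (48, 70)], [(0, 0), (0, 0), (0, 0), (0, 0), (63, 1), (21, 1), (0, 0), (0,
  0), (32, 16), (47, 16), (46, 30), (28, 32), (42, 35), (37, 37), (48, 38), (43, 39), (15, 42),
  (69, 42), (40, 44), (56, 46), (40, 56), (49, 56), (32, 68), (52, 68)]]

/-- the edges of the tiles: kind of the tile, end on side `A`, end on side `B` -/
def eL : List (ℕ × ℕ × ℕ) :=
  [(1, 1, 87), (1, 1, 108), (1, 2, 19), (1, 2, 40), (1, 5, 10), (1, 5, 12), (1, 6, 115), (1, 6,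
  117), (1, 8, 4), (1, 8, 11), (1, 8, 13), (1, 9, 4), (1, 9, 11), (1, 9, 19), (1, 14, 11), (1,
  14, 13), (1, 14, 17), (1, 15, 10), (1, 15, 12), (1, 15, 35), (1, 16, 10), (1, 16, 21), (1,
  16, 22), (1, 18, 13), (1, 18, 17), (1, 18, 32), (1, 20, 0), (1, 20, 12), (1, 20, 39), (1, 23,
  21), (1, 23, 22), (1, 23, 24), (1, 25, 21), (1, 25, 24), (1, 25, 28), (1, 26, 17), (1, 26,
  33), (1, 26, 34), (1, 27, 24), (1, 27, 28), (1, 27, 30), (1, 29, 19), (1, 29, 34), (1, 29,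
  40), (1, 31, 28), (1, 31, 30), (1, 31, 32), (1, 36, 22), (1, 36, 30), (1, 36, 46), (1, 37,
  32), (1, 37, 33), (1, 37, 43), (1, 38, 33), (1, 38, 34), (1, 38, 43), (1, 41, 0), (1, 41,
  39), (1, 41, 47), (1, 42, 35), (1, 42, 46), (1, 42, 48), (1, 44, 39), (1, 44, 47), (1, 44,
  49), (1, 45, 35), (1, 45, 48), (1, 45, 49), (1, 50, 40), (1, 50, 52), (1, 50, 54), (1, 51,
  43), (1, 51, 52), (1, 51, 59), (1, 53, 52), (1, 53, 54), (1, 53, 57), (1, 55, 47), (1, 55,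
  49), (1, 55, 62), (1, 56, 46), (1, 56, 48), (1, 56, 62), (1, 58, 54), (1, 58, 57), (1, 58,
  61), (1, 60, 57), (1, 60, 59), (1, 60, 61), (1, 63, 59), (1, 63, 61), (1, 63, 65), (1, 64,
  62), (1, 64, 66), (1, 64, 68), (1, 67, 66), (1, 67, 68), (1, 67, 70), (1, 69, 66), (1, 69,
  70), (1, 69, 73), (1, 71, 65), (1, 71, 79), (1, 71, 81), (1, 72, 65), (1, 72, 78), (1, 72,
  80), (1, 74, 70), (1, 74, 73), (1, 74, 75), (1, 76, 68), (1, 76, 75), (1, 76, 84), (1, 77,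
  73), (1, 77, 75), (1, 77, 87), (1, 82, 78), (1, 82, 79), (1, 82, 92), (1, 83, 78), (1, 83,
  80), (1, 83, 88), (1, 85, 79), (1, 85, 81), (1, 85, 92), (1, 86, 3), (1, 86, 80), (1, 86,
  88), (1, 89, 84), (1, 89, 93), (1, 89, 94), (1, 90, 84), (1, 90, 94), (1, 90, 95), (1, 91,
  81), (1, 91, 97), (1, 91, 105), (1, 96, 95), (1, 96, 97), (1, 96, 99), (1, 98, 87), (1, 98,
  93), (1, 98, 108), (1, 100, 97), (1, 100, 99), (1, 100, 103), (1, 101, 93), (1, 101, 94), (1,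
  101, 110), (1, 102, 99), (1, 102, 103), (1, 102, 106), (1, 104, 103), (1, 104, 105), (1, 104,
  106), (1, 107, 3), (1, 107, 88), (1, 107, 115), (1, 109, 95), (1, 109, 110), (1, 109, 114),
  (1, 111, 105), (1, 111, 106), (1, 111, 117), (1, 112, 92), (1, 112, 115), (1, 112, 117), (1,
  113, 110), (1, 113, 114), (1, 113, 116), (1, 118, 7), (1, 118, 108), (1, 118, 116), (1, 119,
  7), (1, 119, 114), (1, 119, 116), (2, 1, 15), (2, 1, 23), (2, 2, 4), (2, 2, 10), (2, 5, 0),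
  (2, 5, 9), (2, 6, 30), (2, 6, 35), (2, 8, 4), (2, 8, 10), (2, 8, 12), (2, 11, 0), (2, 11, 9),
  (2, 11, 15), (2, 13, 9), (2, 13, 12), (2, 13, 16), (2, 14, 3), (2, 14, 10), (2, 14, 12), (2,
  17, 15), (2, 17, 16), (2, 17, 19), (2, 18, 3), (2, 18, 16), (2, 18, 30), (2, 20, 19), (2, 20,
  22), (2, 20, 24), (2, 21, 19), (2, 21, 22), (2, 21, 27), (2, 25, 23), (2, 25, 24), (2, 25,
  29), (2, 26, 22), (2, 26, 27), (2, 26, 31), (2, 28, 24), (2, 28, 29), (2, 28, 31), (2, 32,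
  27), (2, 32, 30), (2, 32, 35), (2, 33, 7), (2, 33, 23), (2, 33, 29), (2, 34, 7), (2, 34, 31),
  (2, 34, 35), (3, 2, 8), (3, 2, 11), (3, 9, 8), (3, 9, 11), (3, 9, 12), (3, 10, 8), (3, 10,
  12), (3, 10, 15), (3, 13, 12), (3, 13, 15), (3, 13, 16), (3, 14, 3), (3, 14, 11), (3, 14,
  16), (3, 17, 3), (3, 17, 15), (3, 17, 16), (4, 1, 14), (4, 1, 17), (4, 8, 0), (4, 8, 9), (4,
  8, 10), (4, 11, 0), (4, 11, 9), (4, 11, 14), (4, 12, 9), (4, 12, 10), (4, 12, 13), (4, 15,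
  10), (4, 15, 13), (4, 15, 17), (4, 16, 13), (4, 16, 14), (4, 16, 17), (5, 6, 17), (5, 6, 23),
  (5, 9, 8), (5, 9, 11), (5, 9, 17), (5, 10, 8), (5, 10, 12), (5, 10, 14), (5, 13, 11), (5, 13,
  12), (5, 13, 19), (5, 15, 11), (5, 15, 17), (5, 15, 19), (5, 16, 7), (5, 16, 8), (5, 16, 14),
  (5, 18, 12), (5, 18, 14), (5, 18, 20), (5, 21, 19), (5, 21, 20), (5, 21, 23), (5, 22, 7), (5,
  22, 20), (5, 22, 23), (6, 5, 8), (6, 5, 16), (6, 9, 4), (6, 9, 8), (6, 9, 10), (6, 11, 8),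
  (6, 11, 13), (6, 11, 16), (6, 12, 10), (6, 12, 13), (6, 12, 15), (6, 14, 10), (6, 14, 15),
  (6, 14, 19), (6, 17, 4), (6, 17, 19), (6, 17, 23), (6, 18, 13), (6, 18, 15), (6, 18, 20), (6,
  21, 19), (6, 21, 20), (6, 21, 23), (6, 22, 16), (6, 22, 20), (6, 22, 23)]

/-- the selected vertices: for each kind of tiles and each state -/
def selT : List (List (List ℕ)) :=
  [[], [[9, 12, 13, 16, 18, 19, 20, 21, 27, 30, 33, 38, 42, 47, 48, 50, 52, 55, 60, 61, 67, 68,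
  72, 73, 77, 79, 80, 85, 89, 94, 99, 100, 105, 107, 108, 109, 111, 114, 115, 118], [5, 6, 12,
  13, 14, 19, 21, 25, 29, 30, 33, 36, 37, 41, 45, 47, 48, 52, 53, 61, 63, 64, 68, 73, 74, 79,
  80, 82, 86, 90, 91, 94, 98, 99, 102, 105, 108, 113, 114, 115], [1, 2, 8, 12, 13, 15, 19, 21,
  23, 26, 30, 31, 33, 44, 47, 48, 51, 52, 56, 58, 61, 68, 69, 71, 73, 76, 79, 80, 83, 94, 96,
  99, 101, 104, 105, 108, 112, 114, 115, 119], [1, 2, 5, 6, 12, 13, 14, 19, 21, 23, 30, 31, 33,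
  38, 42, 44, 47, 48, 52, 53, 61, 63, 64, 68, 73, 74, 79, 80, 83, 85, 89, 94, 96, 99, 104, 105,
  108, 113, 114, 115]], [[8, 9, 10, 11, 18, 19, 21, 23, 25, 30, 31, 34], [5, 6, 9, 10, 14, 17,
  19, 23, 25, 26, 30, 31], [1, 2, 6, 9, 10, 13, 19, 21, 23, 28, 30, 31], []], [[8, 10, 14, 16],
  [8, 10, 14, 16], [2, 8, 13, 16], [2, 8, 13, 16]], [[8, 10, 14, 16], [8, 10, 14, 16], [1, 10,
  12, 14], [1, 10, 12, 14]], [[10, 11, 14, 15, 22, 23], [10, 11, 14, 15, 22, 23], [10, 11, 14,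
  15, 22, 23], [10, 11, 14, 15, 22, 23]], [[], [5, 8, 12, 15, 21, 23], [], [5, 8, 12, 15, 21,
  23]]]

/-- the vertices on side `B` of the tiles and their neighbours; the neighbour outside of the tile
of a vertex `b < 8` is denoted by `b` -/
def qT : List (List (ℕ × ℕ × ℕ × ℕ)) :=
  [[], [(0, 20, 41, 0), (3, 86, 107, 3), (4, 8, 9, 4), (7, 118, 119, 7), (10, 5, 15, 16), (11,
  8, 9, 14), (12, 5, 15, 20), (13, 8, 14, 18), (17, 14, 18, 26), (19, 2, 9, 29), (21, 16, 23,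
  25), (22, 16, 23, 36), (24, 23, 25, 27), (28, 25, 27, 31), (30, 27, 31, 36), (32, 18, 31,
  37), (33, 26, 37, 38), (34, 26, 29, 38), (35, 15, 42, 45), (39, 20, 41, 44), (40, 2, 29, 50),
  (43, 37, 38, 51), (46, 36, 42, 56), (47, 41, 44, 55), (48, 42, 45, 56), (49, 44, 45, 55),
  (52, 50, 51, 53), (54, 50, 53, 58), (57, 53, 58, 60), (59, 51, 60, 63), (61, 58, 60, 63),
  (62, 55, 56, 64), (65, 63, 71, 72), (66, 64, 67, 69), (68, 64, 67, 76), (70, 67, 69, 74),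
  (73, 69, 74, 77), (75, 74, 76, 77), (78, 72, 82, 83), (79, 71, 82, 85), (80, 72, 83, 86),
  (81, 71, 85, 91), (84, 76, 89, 90), (87, 1, 77, 98), (88, 83, 86, 107), (92, 82, 85, 112),
  (93, 89, 98, 101), (94, 89, 90, 101), (95, 90, 96, 109), (97, 91, 96, 100), (99, 96, 100,
  102), (103, 100, 102, 104), (105, 91, 104, 111), (106, 102, 104, 111), (108, 1, 98, 118),
  (110, 101, 109, 113), (114, 109, 113, 119), (115, 6, 107, 112), (116, 113, 118, 119), (117,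
  6, 111, 112)], [(0, 5, 11, 0), (3, 14, 18, 3), (4, 2, 8, 4), (7, 33, 34, 7), (9, 5, 11, 13),
  (10, 2, 8, 14), (12, 8, 13, 14), (15, 1, 11, 17), (16, 13, 17, 18), (19, 17, 20, 21), (22,
  20, 21, 26), (23, 1, 25, 33), (24, 20, 25, 28), (27, 21, 26, 32), (29, 25, 28, 33), (30, 6,
  18, 32), (31, 26, 28, 34), (35, 6, 32, 34)], [(3, 14, 17, 3), (8, 2, 9, 10), (11, 2, 9, 14),
  (12, 9, 10, 13), (15, 10, 13, 17), (16, 13, 14, 17)], [(0, 8, 11, 0), (9, 8, 11, 12), (10, 8,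
  12, 15), (13, 12, 15, 16), (14, 1, 11, 16), (17, 1, 15, 16)], [(7, 16, 22, 7), (8, 9, 10,
  16), (11, 9, 13, 15), (12, 10, 13, 18), (14, 10, 16, 18), (17, 6, 9, 15), (19, 13, 15, 21),
  (20, 18, 21, 22), (23, 6, 21, 22)], [(4, 9, 17, 4), (8, 5, 9, 11), (10, 9, 12, 14), (13, 11,
  12, 18), (15, 12, 14, 18), (16, 5, 11, 22), (19, 14, 17, 21), (20, 18, 21, 22), (23, 17, 21,
  22)]]

/-- the order of the search -/
def ordT : List (List ℕ) :=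
  [[], [0, 20, 41, 44, 55, 45, 15, 42, 56, 5, 16, 36, 23, 25, 27, 31, 64, 67, 69, 74, 76, 77,
  18, 37, 26, 38, 14, 8, 9, 29, 2, 4, 50, 51, 53, 58, 60, 63, 71, 72, 82, 85, 83, 86, 107, 112,
  6, 3, 111, 91, 104, 102, 100, 96, 90, 89, 101, 109, 98, 1, 113, 118, 119, 7], [0, 11, 5, 13,
  17, 1, 18, 14, 8, 2, 3, 4, 20, 21, 26, 32, 6, 34, 28, 25, 33, 7], [3, 14, 17, 13, 10, 9, 2],
  [0, 11, 8, 12, 15, 16, 1], [7, 16, 22, 18, 10, 21, 13, 15, 9, 6], [4, 17, 9, 14, 12, 18, 21,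
  22, 11, 5]]

/-- the tests of the search -/
def stT : List (List (List (ℕ × ℕ × ℕ) × List (ℕ × ℕ))) :=
  [[], [([], []), ([], [(0, 1)]), ([(1, 0, 2)], [(1, 0)]), ([(2, 1, 0)], [(1, 0)]), ([(2, 1,
  0)], [(1, 0)]), ([(2, 0, 1)], []), ([], [(0, 5), (0, 1)]), ([(1, 0, 2)], [(0, 2)]), ([(1, 3,
  0)], [(1, 0), (4, 0)]), ([(0, 3, 8)], [(0, 3)]), ([(1, 4, 0)], []), ([(0, 4, 3)], [(1, 0)]),
  ([(2, 0, 1)], [(2, 0)]), ([(3, 1, 0)], [(1, 0)]), ([(2, 1, 0)], [(1, 0), (0, 3)]), ([(2, 1,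
  0), (1, 0, 4)], []), ([(12, 8, 0)], []), ([], [(1, 0), (1, 0)]), ([(2, 1, 0)], [(1, 0)]),
  ([(2, 1, 0)], [(1, 0)]), ([(4, 3, 0)], [(1, 0)]), ([(3, 2, 0), (2, 1, 0)], []), ([], [(0,
  7)]), ([(1, 8, 0)], []), ([], [(2, 0), (0, 1)]), ([(1, 2, 0)], [(1, 0), (2, 0)]), ([(0, 4,
  2)], [(0, 4)]), ([(0, 1, 5)], [(0, 1)]), ([(1, 0, 2)], [(1, 0)]), ([(5, 0, 4)], [(1, 0)]),
  ([(0, 2, 1)], [(0, 1)]), ([(4, 3, 0)], []), ([(2, 3, 0)], []), ([(10, 8, 0)], [(1, 0)]),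
  ([(2, 1, 0)], [(2, 0)]), ([(3, 1, 0)], [(1, 0)]), ([(2, 1, 0)], [(3, 0), (1, 0)]), ([(4, 1,
  0), (2, 1, 0)], []), ([], [(1, 0)]), ([(2, 1, 0)], []), ([], [(1, 0), (2, 0)]), ([(3, 1, 0)],
  [(3, 0), (1, 0)]), ([(3, 2, 0)], [(3, 0)]), ([(4, 1, 0)], [(1, 0)]), ([(2, 1, 0)], [(1, 0)]),
  ([(5, 4, 0)], [(1, 0)]), ([(0, 2, 1)], [(0, 1)]), ([(4, 3, 0)], []), ([(2, 0, 3)], []),
  ([(11, 8, 0)], [(0, 1)]), ([(1, 0, 2)], [(0, 2)]), ([(0, 1, 3)], [(0, 1)]), ([(0, 1, 2)],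
  [(3, 0), (0, 1)]), ([(4, 0, 1), (0, 1, 2)], []), ([], [(34, 0), (0, 1)]), ([(35, 0, 1)], [(0,
  1)]), ([(1, 2, 0)], [(1, 0)]), ([(3, 4, 0)], [(1, 0)]), ([(3, 0, 2)], [(37, 0)]), ([(0, 38,
  1)], [(0, 1)]), ([(4, 3, 0)], [(3, 0)]), ([(2, 3, 0)], [(1, 0)]), ([(5, 2, 0), (2, 1, 0)],
  [(1, 0)]), ([(2, 1, 0)], [])], [([], []), ([], [(0, 1)]), ([(0, 1, 2)], [(0, 1)]), ([(1, 2,
  0)], []), ([], [(3, 0), (1, 0)]), ([(0, 4, 1)], []), ([(3, 2, 0)], []), ([], [(0, 1), (4,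
  0)]), ([(0, 5, 1)], [(0, 1)]), ([(0, 1, 2)], [(0, 1)]), ([(3, 4, 0)], []), ([(2, 3, 0)], []),
  ([], [(8, 0)]), ([(9, 1, 0)], [(1, 0)]), ([(2, 1, 0)], [(1, 0)]), ([(2, 1, 0)], [(9, 0)]),
  ([(0, 10, 1)], [(0, 1)]), ([(1, 2, 0)], [(3, 0)]), ([(4, 0, 1)], [(6, 0)]), ([(7, 0, 1)],
  [(14, 0), (0, 1)]), ([(15, 1, 0), (1, 2, 0)], [(0, 3)]), ([(1, 4, 0)], [])], [([], []), ([],
  [(0, 1)]), ([(1, 0, 2)], [(1, 0)]), ([(0, 2, 1)], [(0, 1)]), ([(0, 1, 2)], [(0, 1)]), ([(0,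
  1, 2)], [(0, 1), (0, 4)]), ([(0, 1, 2), (0, 1, 5)], [])], [([], []), ([], [(0, 1)]), ([(0, 1,
  2)], [(0, 1)]), ([(1, 2, 0)], [(1, 0)]), ([(2, 1, 0)], [(1, 0)]), ([(2, 1, 0)], [(4, 0), (1,
  0)]), ([(0, 5, 1), (0, 2, 1)], [])], [([], []), ([], [(0, 1)]), ([(1, 0, 2)], []), ([], [(2,
  0), (0, 1)]), ([(0, 3, 1)], [(0, 3), (0, 1)]), ([(2, 0, 3)], [(0, 3)]), ([(2, 0, 3)], [(0,
  1)]), ([(1, 0, 2)], [(1, 0)]), ([(0, 4, 7), (0, 2, 1)], [(0, 1)]), ([(0, 1, 2), (0, 4, 7)],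
  [])], [([], []), ([], [(0, 1)]), ([(0, 1, 2)], []), ([], [(1, 0), (0, 2)]), ([(2, 0, 1)],
  [(0, 1)]), ([(1, 2, 0)], [(1, 0)]), ([(3, 5, 0)], [(1, 0), (5, 0)]), ([(2, 1, 0), (6, 1, 0)],
  []), ([(0, 4, 3)], [(6, 0), (0, 1)]), ([(0, 7, 1), (0, 1, 2)], [])]]

end Pool.Agent.H76.OP
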